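import Pool.Agent.U158.RW.Loc

set_option autoImplicit false
set_option linter.unusedSectionVars false
set_option linter.unusedVariables false

/-!
# Deterministic consequences of the local law (helper158)
-/

open MeasureTheory Filter Set
open scoped ENNReal Topology

namespace Pool.Agent.U158.RW

open Pool.Agent.U462.Gap

/-- the `n` for which the interval `(n, n + c log² n]` contains no element of `S` -/
def Vd (S : Set ℕ) (c : ℝ) : Set ℕ := {n | ∀ m : ℕ, n < m → (m : ℝ) ≤ n + c * Real.log n ^ 2 → m ∉ S}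

open Classical in
/-- the number of the elements of `Vd S c` in `(X, X + Y]` -/
noncomputable def Vn (S : Set ℕ) (c : ℝ) (X Y : ℕ) : ℕ :=
  ((Finset.Ioc X (X + Y)).filter fun n => n ∈ Vd S c).card

lemma Vd_anti {S : Set ℕ} {c c' : ℝ} (h : c ≤ c') : Vd S c' ⊆ Vd S c := by
  intro n hn m h1 h2
  refine hn m h1 (h2.trans ?_)
  have := mul_le_mul_of_nonneg_right h (sq_nonneg (Real.log (n : ℝ)))
  linarith

lemma Vn_anti {S : Set ℕ} {c c' : ℝ} (h : c ≤ c') (X Y : ℕ) : Vn S c' X Y ≤ Vn S c X Y := by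
  classical
  unfold Vn
  apply Finset.card_le_card
  intro n hn
  rw [Finset.mem_filter] at hn ⊢
  exact ⟨hn.1, Vd_anti h hn.2⟩

lemma Vd_iff {Ω : Type} {A : ℕ → Set Ω} {ω : Ω} {c : ℝ} (hc : 0 ≤ c) (n : ℕ) :
    n ∈ Vd {m | ω ∈ A m} c ↔ ω ∈ Em A n (wl c n) := by
  have h0 : 0 ≤ c * Real.log n ^ 2 := by positivity
  constructor
  · intro h m h1 h2
    refine h m h1 ?_
    have h3 : ((m - n : ℕ) : ℝ) ≤ c * Real.log n ^ 2 := by
      have h4 : m - n ≤ ⌊c * Real.log n ^ 2⌋₊ := by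
        have : wl c n = ⌊c * Real.log n ^ 2⌋₊ := rfl
        omega
      exact (Nat.cast_le.2 h4).trans (Nat.floor_le h0)
    rw [Nat.cast_sub h1.le] at h3
    linarith
  · intro h m h1 h2
    refine h m h1 ?_
    have h3 : m - n ≤ ⌊c * Real.log n ^ 2⌋₊ := by
      apply Nat.le_floor
      rw [Nat.cast_sub h1.le]
      linarith
    have : wl c n = ⌊c * Real.log n ^ 2⌋₊ := rfl
    omega

lemma Vn_eq {Ω : Type} {A : ℕ → Set Ω} {ω : Ω} {c : ℝ} (hc : 0 ≤ c) (X Y : ℕ) :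
    Vn {m | ω ∈ A m} c X Y = Nc A c X Y ω := by
  classical
  unfold Vn Nc
  congr 1
  ext n
  rw [Finset.mem_filter, Finset.mem_filter, Vd_iff hc]

/-- the pigeonhole principle for the gaps -/
lemma pigeon {S : Set ℕ} {c : ℝ} {Z L M : ℕ} (hL : 0 < L) (hM : M * L ≤ Z)
    (h : ∀ X, Z ≤ X → X ≤ 2 * Z → ∃ n, n ∈ Vd S c ∧ X < n ∧ n ≤ X + L) : M ≤ Vn S c Z Z := by
  classical
  have h1 : ∀ k : ℕ, ∃ n, k < M → (n ∈ Vd S c ∧ Z + k * L < n ∧ n ≤ Z + k * L + L) := by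
    intro k
    by_cases hk : k < M
    · have h2 : (k + 1) * L ≤ M * L := Nat.mul_le_mul_right _ hk
      rw [Nat.add_mul, one_mul] at h2
      obtain ⟨n, hn⟩ := h (Z + k * L) (by omega) (by omega)
      exact ⟨n, fun _ => hn⟩
    · exact ⟨0, fun h => absurd h hk⟩
  choose f hf using h1
  have h2 : (Finset.range M).card ≤ Vn S c Z Z := by
    unfold Vn
    refine Finset.card_le_card_of_injOn f ?_ ?_
    · intro k hk
      rw [Finset.coe_range] at hk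
      obtain ⟨h3, h4, h5⟩ := hf k hk
      have h2 : (k + 1) * L ≤ M * L := Nat.mul_le_mul_right _ hk
      rw [Nat.add_mul, one_mul] at h2
      rw [Finset.mem_coe, Finset.mem_filter, Finset.mem_Ioc]
      exact ⟨⟨by omega, by omega⟩, h3⟩
    · intro k hk k' hk' he
      rw [Finset.coe_range] at hk hk'
      obtain ⟨-, h4, h5⟩ := hf k hk
      obtain ⟨-, h6, h7⟩ := hf k' hk'
      rw [he] at h4 h5
      by_contra hne
      rcases Nat.lt_or_gt_of_ne hne with h8 | h8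
      · have h9 : (k + 1) * L ≤ k' * L := Nat.mul_le_mul_right _ h8
        rw [Nat.add_mul, one_mul] at h9
        omega
      · have h9 : (k' + 1) * L ≤ k * L := Nat.mul_le_mul_right _ h8
        rw [Nat.add_mul, one_mul] at h9
        omega
  rwa [Finset.card_range] at h2

/-- intervals of length `X ^ (c - ε)` without an element of `Vd S c` -/
lemma gaps_exist {S : Set ℕ} {c ε : ℝ} (hc : 0 < c) (hc1 : c < 1) (hε : 0 < ε)
    (h : ∀ᶠ X : ℕ in atTop, (Vn S c X X : ℝ) ≤ (X : ℝ) * (X : ℝ) ^ (-(c - ε / 2))) :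
    ∀ᶠ Z : ℕ in atTop, ∃ X : ℕ, Z ≤ X ∧ X ≤ 2 * Z ∧
      ∀ n ∈ Vd S c, X < n → (X : ℝ) + (X : ℝ) ^ (c - ε) < n := by
  rcases lt_or_ge (c - ε) 0 with hce | hce
  · filter_upwards [eventually_ge_atTop 2] with Z hZ
    refine ⟨Z, le_rfl, by omega, fun n _ hn => ?_⟩
    have h1 : (1 : ℝ) < Z := by exact_mod_cast (by omega : 1 < Z)
    have h2 : (Z : ℝ) ^ (c - ε) < 1 := Real.rpow_lt_one_of_one_lt_of_neg h1 hce
    have h3 : (Z : ℝ) + 1 ≤ n := by exact_mod_cast hn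
    linarith
  · have h16 : ∀ᶠ Z : ℕ in atTop, (16 : ℝ) < (Z : ℝ) ^ (ε / 2) :=
      ((tendsto_rpow_atTop (show 0 < ε / 2 by linarith)).comp tendsto_natCast_atTop_atTop).eventually_gt_atTop 16
    have h4 : ∀ᶠ Z : ℕ in atTop, (4 : ℝ) * 2 < (Z : ℝ) ^ (1 - c + ε) :=
      ((tendsto_rpow_atTop (show 0 < 1 - c + ε by linarith)).comp tendsto_natCast_atTop_atTop).eventually_gt_atTop _
    filter_upwards [h, h16, h4, eventually_ge_atTop 1] with Z h1 h2 h3 hZ1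
    by_contra hcon
    push Not at hcon
    have hZr : (1 : ℝ) ≤ Z := by exact_mod_cast hZ1
    have hZ0 : (0 : ℝ) < Z := by linarith
    obtain ⟨P, hP⟩ : ∃ P : ℝ, P = (Z : ℝ) ^ (c - ε) := ⟨_, rfl⟩
    have hP1 : 1 ≤ P := by rw [hP]; exact Real.one_le_rpow hZr hce
    have h2Z : ((2 * Z : ℕ) : ℝ) ^ (c - ε) ≤ 2 * P := by
      push_cast
      rw [Real.mul_rpow (by norm_num) hZ0.le, hP]
      apply mul_le_mul_of_nonneg_right _ (by positivity)
      calc (2 : ℝ) ^ (c - ε) ≤ (2 : ℝ) ^ (1 : ℝ) := Real.rpow_le_rpow_of_exponent_le (by norm_num) (by linarith)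
        _ = 2 := Real.rpow_one 2
    obtain ⟨L, hL⟩ : ∃ L : ℕ, L = ⌊2 * P⌋₊ := ⟨_, rfl⟩
    have hL0 : 0 < L := by
      rw [hL]
      exact Nat.floor_pos.2 (by linarith)
    have hLP : (L : ℝ) ≤ 2 * P := by rw [hL]; exact Nat.floor_le (by linarith)
    have h5 := pigeon (S := S) (c := c) (Z := Z) (L := L) (M := Z / L) hL0 (Nat.div_mul_le_self _ _)
      (fun X hX1 hX2 => by
        obtain ⟨n, hn1, hn2, hn3⟩ := hcon X hX1 hX2
        refine ⟨n, hn1, hn2, ?_⟩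
        have h6 : (X : ℝ) ^ (c - ε) ≤ ((2 * Z : ℕ) : ℝ) ^ (c - ε) := by
          apply Real.rpow_le_rpow (Nat.cast_nonneg _) _ hce
          exact_mod_cast hX2
        have h7 : ((n - X : ℕ) : ℝ) ≤ 2 * P := by
          rw [Nat.cast_sub hn2.le]
          linarith
        have h8 : n - X ≤ L := by
          rw [hL]
          exact Nat.le_floor h7
        omega)
    have h6 : (Z : ℝ) < ((Z / L : ℕ) + 1 : ℝ) * L := by
      have h7 : Z < (Z / L + 1) * L := by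
        have := Nat.lt_div_mul_add (a := Z) hL0
        rw [Nat.add_mul, one_mul]
        exact this
      exact_mod_cast h7
    have h7 : ((Z / L : ℕ) : ℝ) ≤ (Vn S c Z Z : ℝ) := by exact_mod_cast h5
    -- `Z < (V + 1) 2 P`, `V ≤ Z ^ (1 - c + ε / 2)`
    obtain ⟨V, hV⟩ : ∃ V : ℝ, V = (Vn S c Z Z : ℝ) := ⟨_, rfl⟩
    rw [← hV] at h7 h1
    have hLr : (0 : ℝ) < L := by exact_mod_cast hL0
    have hV0 : 0 ≤ V := by rw [hV]; exact Nat.cast_nonneg _
    have h8 : (Z : ℝ) < (V + 1) * (2 * P) := by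
      calc (Z : ℝ) < ((Z / L : ℕ) + 1 : ℝ) * L := h6
        _ ≤ (V + 1) * L := mul_le_mul_of_nonneg_right (by linarith) hLr.le
        _ ≤ (V + 1) * (2 * P) := mul_le_mul_of_nonneg_left hLP (by linarith)
    have e1 : (Z : ℝ) = (Z : ℝ) ^ (1 - c + ε) * P := by
      rw [hP, ← Real.rpow_add hZ0]
      rw [show 1 - c + ε + (c - ε) = 1 by ring, Real.rpow_one]
    have e2 : (Z : ℝ) * (Z : ℝ) ^ (-(c - ε / 2)) * (Z : ℝ) ^ (ε / 2) = (Z : ℝ) ^ (1 - c + ε) := by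
      nth_rw 1 [← Real.rpow_one (Z : ℝ)]
      rw [← Real.rpow_add hZ0, ← Real.rpow_add hZ0]
      congr 1
      ring
    obtain ⟨R, hR⟩ : ∃ R : ℝ, R = (Z : ℝ) ^ (1 - c + ε) := ⟨_, rfl⟩
    rw [← hR] at e1 e2 h3
    obtain ⟨U, hU⟩ : ∃ U : ℝ, U = (Z : ℝ) * (Z : ℝ) ^ (-(c - ε / 2)) := ⟨_, rfl⟩
    rw [← hU] at e2 h1
    have hU0 : 0 < U := by rw [hU]; positivity
    have h9 : R < 2 * (V + 1) := by
      have h10 : R * P < 2 * (V + 1) * P := by
        rw [← e1]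
        linarith
      exact lt_of_mul_lt_mul_right h10 (by linarith)
    have h10 : 16 * U < R := by
      rw [← e2]
      nlinarith
    linarith

/-- passing from the rational numbers to all the real numbers -/
lemma law_real {S : Set ℕ}
    (h : ∀ q e : ℚ, 0 < q → q < 1 → 0 < e → ∀ᶠ X : ℕ in atTop, ∀ Y : ℕ, (X : ℝ) ^ ((q : ℝ) + e) ≤ Y → Y ≤ X →
      (Y : ℝ) * (X : ℝ) ^ (-((q : ℝ) + e)) ≤ Vn S q X Y ∧ (Vn S q X Y : ℝ) ≤ Y * (X : ℝ) ^ (-((q : ℝ) - e)))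
    {c ε : ℝ} (hc : 0 < c) (hc1 : c < 1) (hε : 0 < ε) :
    ∀ᶠ X : ℕ in atTop, ∀ Y : ℕ, (X : ℝ) ^ (c + ε) ≤ Y → Y ≤ X →
      (Y : ℝ) * (X : ℝ) ^ (-(c + ε)) ≤ Vn S c X Y ∧ (Vn S c X Y : ℝ) ≤ Y * (X : ℝ) ^ (-(c - ε)) := by
  obtain ⟨q₁, h1, h1'⟩ := exists_rat_btwn (show max 0 (c - ε / 2) < c from max_lt hc (by linarith))
  obtain ⟨q₂, h2, h2'⟩ := exists_rat_btwn (show c < min 1 (c + ε / 2) from lt_min hc1 (by linarith))
  obtain ⟨e, h3, h3'⟩ := exists_rat_btwn (show 0 < ε / 2 by linarith)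
  have h1a := (le_max_left 0 (c - ε / 2)).trans_lt h1
  have h1b := (le_max_right 0 (c - ε / 2)).trans_lt h1
  have h2a := h2'.trans_le (min_le_left 1 (c + ε / 2))
  have h2b := h2'.trans_le (min_le_right 1 (c + ε / 2))
  have hq1 : 0 < q₁ := by exact_mod_cast h1a
  have hq1' : q₁ < 1 := by
    have : (q₁ : ℝ) < 1 := by linarith
    exact_mod_cast this
  have hq2 : 0 < q₂ := by
    have : (0 : ℝ) < q₂ := by linarith
    exact_mod_cast this
  have hq2' : q₂ < 1 := by exact_mod_cast h2a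
  have he : 0 < e := by exact_mod_cast h3
  filter_upwards [h q₁ e hq1 hq1' he, h q₂ e hq2 hq2' he, eventually_ge_atTop 1] with X g1 g2 hX Y hY1 hY2
  have hXr : (1 : ℝ) ≤ X := by exact_mod_cast hX
  have g3 := (g1 Y ((Real.rpow_le_rpow_of_exponent_le hXr (by linarith)).trans hY1) hY2).2
  have g4 := (g2 Y ((Real.rpow_le_rpow_of_exponent_le hXr (by linarith)).trans hY1) hY2).1
  have g5 : (Vn S c X Y : ℝ) ≤ Vn S q₁ X Y := by exact_mod_cast Vn_anti h1'.le X Y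
  have g6 : (Vn S q₂ X Y : ℝ) ≤ Vn S c X Y := by exact_mod_cast Vn_anti h2.le X Y
  have hY0 : (0 : ℝ) ≤ Y := Nat.cast_nonneg Y
  constructor
  · refine le_trans (mul_le_mul_of_nonneg_left ?_ hY0) (g4.trans g6)
    exact Real.rpow_le_rpow_of_exponent_le hXr (by linarith)
  · refine (g5.trans g3).trans (mul_le_mul_of_nonneg_left ?_ hY0)
    exact Real.rpow_le_rpow_of_exponent_le hXr (by linarith)

end Pool.Agent.U158.RW

namespace Pool.Agent.U158.RW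

open Filter Set

/-- long empty intervals in all short intervals -/
lemma longest_low {S : Set ℕ}
    (h : ∀ c ε : ℝ, 0 < c → c < 1 → 0 < ε → ∀ᶠ X : ℕ in atTop, ∀ Y : ℕ, (X : ℝ) ^ (c + ε) ≤ Y → Y ≤ X →
      (Y : ℝ) * (X : ℝ) ^ (-(c + ε)) ≤ Vn S c X Y) {ε : ℝ} (hε : 0 < ε) :
    ∀ᶠ X : ℕ in atTop, ∀ Y : ℕ, (X : ℝ) ^ ε ≤ Y → Y ≤ X →
      ∃ n : ℕ, X < n ∧ n ≤ X + Y ∧ ∀ m : ℕ, n < m →
        (m : ℝ) ≤ n + (Real.log Y - ε * Real.log X) * Real.log X → m ∉ S := by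
  classical
  obtain ⟨K, hK⟩ := exists_nat_ge (4 / ε)
  have h1 : ∀ᶠ X : ℕ in atTop, ∀ k ∈ Finset.range (K + 1), 0 < (k : ℝ) * (ε / 4) → (k : ℝ) * (ε / 4) < 1 →
      ∀ Y : ℕ, (X : ℝ) ^ ((k : ℝ) * (ε / 4) + ε / 4) ≤ Y → Y ≤ X →
        (Y : ℝ) * (X : ℝ) ^ (-((k : ℝ) * (ε / 4) + ε / 4)) ≤ Vn S ((k : ℝ) * (ε / 4)) X Y := by
    rw [Filter.eventually_all_finset]
    intro k _
    by_cases h2 : 0 < (k : ℝ) * (ε / 4)
    · by_cases h3 : (k : ℝ) * (ε / 4) < 1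
      · filter_upwards [h _ (ε / 4) h2 h3 (by linarith)] with X hX _ _ using hX
      · exact Eventually.of_forall fun X _ h4 => absurd h4 h3
    · exact Eventually.of_forall fun X h4 => absurd h4 h2
  filter_upwards [h1, eventually_ge_atTop 3] with X hX hX3 Y hY1 hY2
  have hX1 : (1 : ℝ) < X := by exact_mod_cast (by omega : 1 < X)
  have hX0 : (0 : ℝ) < X := by linarith
  have hl : 0 < Real.log X := Real.log_pos hX1
  have hY0 : (0 : ℝ) < Y := lt_of_lt_of_le (by positivity) hY1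
  obtain ⟨θ, hθ⟩ : ∃ θ : ℝ, θ = Real.log Y / Real.log X := ⟨_, rfl⟩
  have hθl : Real.log Y = θ * Real.log X := by rw [hθ]; field_simp
  have hYθ : (Y : ℝ) = (X : ℝ) ^ θ := by
    rw [Real.rpow_def_of_pos hX0, mul_comm, ← hθl, Real.exp_log hY0]
  have hθε : ε ≤ θ := by
    rw [hθ, le_div_iff₀ hl]
    have := Real.log_le_log (by positivity) hY1
    rwa [Real.log_rpow hX0] at this
  have hθ1 : θ ≤ 1 := by
    rw [hθ, div_le_one hl]
    exact Real.log_le_log hY0 (by exact_mod_cast hY2)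
  -- the grid point
  have hq : 0 ≤ θ / (ε / 4) := div_nonneg (by linarith) (by linarith)
  obtain ⟨k, hk⟩ : ∃ k, k = ⌊θ / (ε / 4)⌋₊ - 1 := ⟨_, rfl⟩
  have hf1 := Nat.floor_le hq
  have hf2 := Nat.lt_floor_add_one (θ / (ε / 4))
  have hq4 : 4 ≤ θ / (ε / 4) := by
    rw [le_div_iff₀ (by positivity)]
    linarith
  have hf4 : 4 ≤ ⌊θ / (ε / 4)⌋₊ := by
    apply Nat.le_floor
    exact_mod_cast hq4
  have hkr : (k : ℝ) = (⌊θ / (ε / 4)⌋₊ : ℝ) - 1 := by
    rw [hk, Nat.cast_sub (by omega)]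
    simp
  have hk1 : (k : ℝ) * (ε / 4) + ε / 4 ≤ θ := by
    rw [hkr]
    have := mul_le_mul_of_nonneg_right hf1 (show 0 ≤ ε / 4 by positivity)
    rw [div_mul_cancel₀ _ (by positivity)] at this
    linarith
  have hk2 : θ - ε ≤ (k : ℝ) * (ε / 4) := by
    rw [hkr]
    have := mul_le_mul_of_nonneg_right hf2.le (show 0 ≤ ε / 4 by positivity)
    rw [div_mul_cancel₀ _ (by positivity)] at this
    linarith
  have hk0 : 0 < (k : ℝ) * (ε / 4) := by
    have : (3 : ℝ) ≤ k := by exact_mod_cast (by omega : 3 ≤ k)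
    positivity
  have hkK : k ∈ Finset.range (K + 1) := by
    rw [Finset.mem_range]
    have h2 : (k : ℝ) ≤ K := by
      refine le_trans ?_ hK
      rw [le_div_iff₀ hε]
      linarith
    have : k ≤ K := by exact_mod_cast h2
    omega
  have h2 := hX k hkK hk0 (by linarith) Y
    (by rw [hYθ]; exact Real.rpow_le_rpow_of_exponent_le hX1.le hk1) hY2
  have h3 : 0 < (Vn S ((k : ℝ) * (ε / 4)) X Y : ℝ) := lt_of_lt_of_le (by positivity) h2
  have h4 : 0 < Vn S ((k : ℝ) * (ε / 4)) X Y := by exact_mod_cast h3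
  unfold Vn at h4
  obtain ⟨n, hn⟩ := Finset.card_pos.1 h4
  rw [Finset.mem_filter, Finset.mem_Ioc] at hn
  refine ⟨n, hn.1.1, hn.1.2, fun m h5 h6 => hn.2 m h5 (h6.trans ?_)⟩
  have h7 : Real.log X ≤ Real.log n := Real.log_le_log hX0 (by exact_mod_cast hn.1.1.le)
  have h8 : Real.log X ^ 2 ≤ Real.log n ^ 2 := pow_le_pow_left₀ hl.le h7 2
  have h9 : (Real.log Y - ε * Real.log X) * Real.log X = (θ - ε) * Real.log X ^ 2 := by
    rw [hθl]; ring
  rw [h9]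
  have h10 : (θ - ε) * Real.log X ^ 2 ≤ (k : ℝ) * (ε / 4) * Real.log X ^ 2 :=
    mul_le_mul_of_nonneg_right hk2 (sq_nonneg _)
  have h11 : (k : ℝ) * (ε / 4) * Real.log X ^ 2 ≤ (k : ℝ) * (ε / 4) * Real.log n ^ 2 :=
    mul_le_mul_of_nonneg_left h8 hk0.le
  linarith

end Pool.Agent.U158.RW
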