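import Pool.Agent.U158.RW.Mass

set_option autoImplicit false
set_option linter.unusedSectionVars false
set_option linter.unusedVariables false

/-!
# All parameters at once, and the windows behind the powers
-/

open MeasureTheory Filter Set
open scoped ENNReal Topology

namespace Pool.Agent.U158.RW

open Pool.Agent.U462.Gap

variable {Ω : Type} {m0 : MeasurableSpace Ω} {μ : Measure Ω} [IsProbabilityMeasure μ]
  {ℱ : Filtration ℕ m0} {A : ℕ → Set Ω} {a : ℕ → ℝ}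

theorem counts_all (h : Model μ ℱ A a) (ha : ∀ n, 0 ≤ a n) (ha0 : Tendsto a atTop (𝓝 0))
    {x H : ℕ → ℕ} (hx : Tendsto x atTop atTop) (hd : ∀ᶠ n in atTop, x n + H n ≤ x (n + 1))
    {c : ℝ} (hc : 0 < c) (hc1 : c < 1) (hM : HM a x H c) :
    ∀ᵐ ω ∂μ, ∀ ε : ℝ, 0 < ε → ∀ᶠ i : ℕ in atTop, (2 : ℝ) ^ ((1 - c - ε) * i) ≤ Zc A x H i ω ∧
      (Zc A x H i ω : ℝ) ≤ (2 : ℝ) ^ ((1 - c + ε) * i) := by
  have h1 : ∀ᵐ ω ∂μ, ∀ q : ℚ, 0 < (q : ℝ) → (q : ℝ) < 1 - c → ∀ᶠ i : ℕ in atTop,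
      (2 : ℝ) ^ ((1 - c - q) * i) ≤ Zc A x H i ω ∧ (Zc A x H i ω : ℝ) ≤ (2 : ℝ) ^ ((1 - c + q) * i) := by
    rw [ae_all_iff]
    intro q
    by_cases h2 : 0 < (q : ℝ)
    · by_cases h3 : (q : ℝ) < 1 - c
      · filter_upwards [count_low' h ha ha0 hx hd hc hM h2 h3, count_up' h ha ha0 hx hc hM h2]
          with ω h4 h5 _ _
        exact h4.and h5
      · exact Eventually.of_forall fun ω _ h => absurd h h3
    · exact Eventually.of_forall fun ω h => absurd h h2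
  filter_upwards [h1] with ω hω ε hε
  obtain ⟨q, hq0, hq1⟩ := exists_rat_btwn (show (0 : ℝ) < min ε (1 - c) from lt_min hε (by linarith))
  have hq2 : (q : ℝ) < ε := hq1.trans_le (min_le_left _ _)
  have hq3 : (q : ℝ) < 1 - c := hq1.trans_le (min_le_right _ _)
  filter_upwards [hω q hq0 hq3] with i hi
  have hi0 : (0 : ℝ) ≤ i := Nat.cast_nonneg i
  constructor
  · refine le_trans ?_ hi.1
    apply Real.rpow_le_rpow_of_exponent_le (by norm_num)
    exact mul_le_mul_of_nonneg_right (by linarith) hi0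
  · refine hi.2.trans ?_
    apply Real.rpow_le_rpow_of_exponent_le (by norm_num)
    exact mul_le_mul_of_nonneg_right (by linarith) hi0

lemma tmul : Tendsto (fun n : ℕ => (n : ℝ) * Real.log (n : ℝ)) atTop atTop :=
  tendsto_natCast_atTop_atTop.atTop_mul_atTop₀ tlog

lemma log_pow_nat (b n : ℕ) : Real.log ((b ^ n : ℕ) : ℝ) = n * Real.log b := by
  push_cast
  rw [Real.log_pow]

lemma log_b_pos {b : ℕ} (hb : 2 ≤ b) : 0 < Real.log (b : ℝ) :=
  Real.log_pos (by exact_mod_cast (by omega : 1 < b))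

/-- the windows `(b ^ n, b ^ n + C n log n]` -/
theorem HW_pow {b : ℕ} (hb : 2 ≤ b) {C : ℝ} (hC : 0 < C) :
    HW (fun n => b ^ n) (fun n => ⌊C * (n * Real.log n)⌋₊) (C / Real.log b) := by
  intro η hη
  have hB := log_b_pos hb
  filter_upwards [tmul.eventually_ge_atTop (1 / (η * Real.log b)), tlog.eventually_ge_atTop 1] with n h1 h2
  have hn0 : 0 < (n : ℝ) * Real.log n := lt_of_lt_of_le (by positivity) h1
  rw [log_pow_nat]
  obtain ⟨B, hBd⟩ : ∃ B, B = Real.log (b : ℝ) := ⟨_, rfl⟩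
  obtain ⟨t, ht⟩ : ∃ t, t = (n : ℝ) * Real.log n := ⟨_, rfl⟩
  have e : (n : ℝ) * Real.log b * Real.log n = B * t := by rw [hBd, ht]; ring
  rw [e, ← ht, ← hBd]
  rw [← hBd] at hB h1
  rw [← ht] at h1 hn0
  have e2 : C / B * (B * t) = C * t := by field_simp
  have h3 : 1 ≤ η * (B * t) := by
    rw [div_le_iff₀ (by positivity)] at h1
    linarith
  constructor
  · have h4 := (Nat.sub_one_lt_floor (C * t)).le
    have h5 : (C / B - η) * (B * t) = C * t - η * (B * t) := by rw [sub_mul, e2]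
    linarith
  · have h4 := Nat.floor_le (show 0 ≤ C * t by positivity)
    have h5 : (C / B + η) * (B * t) = C * t + η * (B * t) := by rw [add_mul, e2]
    linarith

lemma log_pred {b n : ℕ} (hb : 2 ≤ b) (hn : 1 ≤ n) :
    n * Real.log b - 1 ≤ Real.log ((b ^ n - 1 : ℕ) : ℝ) ∧
      Real.log ((b ^ n - 1 : ℕ) : ℝ) ≤ n * Real.log b := by
  have h1 : 2 ≤ b ^ n := hb.trans (Nat.le_self_pow (by omega) b)
  have h2 : (2 : ℝ) ≤ ((b ^ n : ℕ) : ℝ) := by exact_mod_cast h1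
  have e : ((b ^ n - 1 : ℕ) : ℝ) = ((b ^ n : ℕ) : ℝ) - 1 := by
    rw [Nat.cast_sub (by omega), Nat.cast_one]
  rw [e, ← log_pow_nat]
  constructor
  · have h3 : Real.log (((b ^ n : ℕ) : ℝ) / 2) ≤ Real.log (((b ^ n : ℕ) : ℝ) - 1) :=
      Real.log_le_log (by positivity) (by linarith)
    rw [Real.log_div (by linarith) (by norm_num)] at h3
    have := Real.log_two_lt_d9
    linarith
  · exact Real.log_le_log (by linarith) (by linarith)

/-- the windows `[b ^ n, b ^ n + p_n]` -/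
theorem HW_pn {b : ℕ} (hb : 2 ≤ b) :
    HW (fun n => b ^ n - 1) (fun n => pn n + 1) (1 / Real.log b) := by
  intro η hη
  have hB := log_b_pos hb
  obtain ⟨B, hBd⟩ : ∃ B, B = Real.log (b : ℝ) := ⟨_, rfl⟩
  rw [← hBd] at hB ⊢
  obtain ⟨η₁, h10, h11, h12⟩ : ∃ η₁ : ℝ, 0 < η₁ ∧ η₁ < 1 ∧ η₁ ≤ η * B / 2 :=
    ⟨min (1 / 2) (η * B / 2), lt_min (by norm_num) (by positivity),
      lt_of_le_of_lt (min_le_left _ _) (by norm_num), min_le_right _ _⟩
  filter_upwards [pn_ev h10 h11, tlog.eventually_ge_atTop 1,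
    tendsto_natCast_atTop_atTop.eventually_ge_atTop ((1 / B + η + 1) / (η * B / 2)),
    eventually_ge_atTop 1] with n h1 h2 h3 h4
  obtain ⟨h5, h6⟩ := log_pred hb h4
  rw [← hBd] at h5 h6
  obtain ⟨l, hl⟩ : ∃ l, l = Real.log (n : ℝ) := ⟨_, rfl⟩
  obtain ⟨L, hL⟩ : ∃ L, L = Real.log ((b ^ n - 1 : ℕ) : ℝ) := ⟨_, rfl⟩
  rw [← hL] at h5 h6 ⊢
  rw [← hl] at h1 h2 ⊢
  have hn1 : (1 : ℝ) ≤ n := by exact_mod_cast h4
  have hl0 : 0 < l := by linarith
  push_cast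
  constructor
  · -- lower bound
    rcases le_or_gt (1 / B - η) 0 with h7 | h7
    · rcases le_or_gt 0 L with h8 | h8
      · have : (1 / B - η) * (L * l) ≤ 0 := mul_nonpos_of_nonpos_of_nonneg h7 (by positivity)
        have h9 : (0 : ℝ) ≤ pn n := Nat.cast_nonneg _
        linarith
      · exfalso
        have h9 : (0 : ℝ) ≤ L := by
          rw [hL]
          apply Real.log_natCast_nonneg
        linarith
    · have h8 : (1 / B - η) * (L * l) ≤ (1 / B - η) * (n * B * l) :=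
        mul_le_mul_of_nonneg_left (mul_le_mul_of_nonneg_right h6 hl0.le) h7.le
      have e : (1 / B - η) * (n * B * l) = (1 - η * B) * (n * l) := by field_simp
      rw [e] at h8
      have h9 : (1 - η * B) * (n * l) ≤ (1 - η₁) * (n * l) :=
        mul_le_mul_of_nonneg_right (by nlinarith [mul_pos hη hB]) (by positivity)
      linarith [h1.1]
  · have h8 : (1 / B + η) * ((n * B - 1) * l) ≤ (1 / B + η) * (L * l) :=
      mul_le_mul_of_nonneg_left (mul_le_mul_of_nonneg_right h5 hl0.le) (by positivity)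
    have e : (1 / B + η) * ((n * B - 1) * l) = (1 + η * B) * (n * l) - (1 / B + η) * l := by field_simp
    rw [e] at h8
    have h9 : (1 + η₁) * (n * l) ≤ (1 + η * B / 2) * (n * l) :=
      mul_le_mul_of_nonneg_right (by linarith) (by positivity)
    have h10' : (1 / B + η + 1) * l ≤ η * B / 2 * (n * l) := by
      rw [div_le_iff₀ (by positivity)] at h3
      calc (1 / B + η + 1) * l ≤ (n * (η * B / 2)) * l := mul_le_mul_of_nonneg_right h3 hl0.le
        _ = η * B / 2 * (n * l) := by ring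
    have h13 : (1 : ℝ) ≤ l := h2
    linarith [h1.2]

lemma sq_le_two_pow : ∀ᶠ n : ℕ in atTop, 2 * (n : ℝ) ^ 2 + 2 ≤ (2 : ℝ) ^ n := by
  have h1 : Tendsto (fun n : ℕ => ((n : ℝ)) ^ 2 * (1 / 2 : ℝ) ^ n) atTop (𝓝 0) :=
    tendsto_pow_const_mul_const_pow_of_lt_one 2 (by norm_num) (by norm_num)
  have h2 := h1.eventually (eventually_le_nhds (show (0 : ℝ) < 1 / 4 by norm_num))
  filter_upwards [h2, eventually_ge_atTop 2] with n h3 h4
  have h5 : (n : ℝ) ^ 2 = (n : ℝ) ^ 2 * (1 / 2 : ℝ) ^ n * 2 ^ n := by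
    rw [mul_assoc, ← mul_pow]
    norm_num
  have h6 : (n : ℝ) ^ 2 ≤ 1 / 4 * 2 ^ n := by
    rw [h5]
    exact mul_le_mul_of_nonneg_right h3 (by positivity)
  have h7 : (4 : ℝ) ≤ 2 ^ n := by
    calc (4 : ℝ) = 2 ^ 2 := by norm_num
      _ ≤ 2 ^ n := pow_le_pow_right₀ (by norm_num) h4
  linarith

lemma pow_gap {b n : ℕ} (hb : 2 ≤ b) {h : ℕ} (hh : h + 1 ≤ 2 ^ n) : b ^ n + h + 1 ≤ b ^ (n + 1) := by
  have h1 : 2 ^ n ≤ b ^ n := Nat.pow_le_pow_left hb n
  have h2 : b ^ (n + 1) = b ^ n * b := pow_succ b n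
  have h3 : b ^ n * 2 ≤ b ^ n * b := Nat.mul_le_mul_left _ hb
  omega

/-- the windows `[b ^ n, b ^ n + p_n]` are disjoint -/
lemma disj_pn {b : ℕ} (hb : 2 ≤ b) : ∀ᶠ n in atTop, (b ^ n - 1) + (pn n + 1) ≤ b ^ (n + 1) - 1 := by
  filter_upwards [pn_ev (show (0 : ℝ) < 1 / 2 by norm_num) (by norm_num), sq_le_two_pow,
    eventually_ge_atTop 1] with n h1 h2 h3
  have h4 : Real.log n ≤ n := (Real.log_le_sub_one_of_pos (by exact_mod_cast h3)).trans (by linarith)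
  have h5 : (n : ℝ) * Real.log n ≤ n ^ 2 := by
    rw [sq]
    exact mul_le_mul_of_nonneg_left h4 (Nat.cast_nonneg n)
  have h6 : (pn n : ℝ) + 2 ≤ 2 ^ n := by nlinarith [h1.2, sq_nonneg (n : ℝ)]
  have h7 : pn n + 2 ≤ 2 ^ n := by exact_mod_cast h6
  have h8 := pow_gap hb (n := n) (h := pn n) (by omega)
  have h9 : 1 ≤ b ^ n := Nat.one_le_pow _ _ (by omega)
  omega

/-- the windows `(b ^ n, b ^ n + C n log n]` are disjoint -/
lemma disj_pow {b : ℕ} (hb : 2 ≤ b) {C : ℝ} (hC : C ≤ Real.log b) :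
    ∀ᶠ n : ℕ in atTop, b ^ n + ⌊C * (n * Real.log n)⌋₊ ≤ b ^ (n + 1) := by
  have h1 : Tendsto (fun n : ℕ => ((n : ℝ)) ^ 2 * (1 / 2 : ℝ) ^ n) atTop (𝓝 0) :=
    tendsto_pow_const_mul_const_pow_of_lt_one 2 (by norm_num) (by norm_num)
  have hB := log_b_pos hb
  have h2 := h1.eventually (eventually_le_nhds (show (0 : ℝ) < 1 / Real.log b by positivity))
  filter_upwards [h2, eventually_ge_atTop 1] with n h3 h4
  have h5 : (n : ℝ) ^ 2 = (n : ℝ) ^ 2 * (1 / 2 : ℝ) ^ n * 2 ^ n := by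
    rw [mul_assoc, ← mul_pow]
    norm_num
  have h6 : (n : ℝ) ^ 2 ≤ 1 / Real.log b * 2 ^ n := by
    rw [h5]
    exact mul_le_mul_of_nonneg_right h3 (by positivity)
  have h7 : Real.log n ≤ n := (Real.log_le_sub_one_of_pos (by exact_mod_cast h4)).trans (by linarith)
  have h8 : (n : ℝ) * Real.log n ≤ n ^ 2 := by
    rw [sq]
    exact mul_le_mul_of_nonneg_left h7 (Nat.cast_nonneg n)
  have h9 : C * (n * Real.log n) ≤ 2 ^ n := by
    have h10 : 0 ≤ (n : ℝ) * Real.log n :=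
      mul_nonneg (Nat.cast_nonneg n) (Real.log_natCast_nonneg n)
    calc C * (n * Real.log n) ≤ Real.log b * (n * Real.log n) := mul_le_mul_of_nonneg_right hC h10
      _ ≤ Real.log b * (1 / Real.log b * 2 ^ n) :=
        mul_le_mul_of_nonneg_left (h8.trans h6) hB.le
      _ = 2 ^ n := by field_simp
  have h10 : ⌊C * (n * Real.log n)⌋₊ ≤ 2 ^ n := by
    have h11 : ⌊C * (n * Real.log n)⌋₊ ≤ ⌊((2 ^ n : ℕ) : ℝ)⌋₊ := Nat.floor_mono (by push_cast; exact h9)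
    rwa [Nat.floor_natCast] at h11
  have h11 : 2 ^ n ≤ b ^ n := Nat.pow_le_pow_left hb n
  have h12 : b ^ (n + 1) = b ^ n * b := pow_succ b n
  have h13 : b ^ n * 2 ≤ b ^ n * b := Nat.mul_le_mul_left _ hb
  omega

lemma le_pow_pred {b : ℕ} (hb : 2 ≤ b) (n : ℕ) : n ≤ b ^ n - 1 := by
  have h1 := Nat.lt_two_pow_self (n := n)
  have h2 : 2 ^ n ≤ b ^ n := Nat.pow_le_pow_left hb n
  omega

end Pool.Agent.U158.RW
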