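import Pool.Agent.U462.Gap.Fin

set_option autoImplicit false
set_option linter.unusedSectionVars false
set_option linter.unusedVariables false

/-!
# Windows behind the terms of a sequence, in sequential random models (helper158)

After the library `Pool.Agent.U462.Gap` of helper462 (windows behind all the integers).
-/

open MeasureTheory Filter Set
open scoped ENNReal Topology

namespace Pool.Agent.U158.RW

open Pool.Agent.R528.RM (dens WV dens_meas lower_meas upper_meas WV_meas)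
open Pool.Agent.U462.Gap

variable {Ω : Type} {m0 : MeasurableSpace Ω} {μ : Measure Ω} [IsProbabilityMeasure μ]
  {ℱ : Filtration ℕ m0} {A : ℕ → Set Ω} {a : ℕ → ℝ}

/-- the expected number of elements in the window `(x n, x n + H n]` -/
noncomputable def Ms (a : ℕ → ℝ) (x H : ℕ → ℕ) (n : ℕ) : ℝ :=
  ∑ m ∈ Finset.Ioc (x n) (x n + H n), a m

/-- the expected number is `(c + o(1)) log n` -/
def HM (a : ℕ → ℝ) (x H : ℕ → ℕ) (c : ℝ) : Prop := ∀ η : ℝ, 0 < η → ∀ᶠ n : ℕ in atTop,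
  (c - η) * Real.log n ≤ Ms a x H n ∧ Ms a x H n ≤ (c + η) * Real.log n

lemma Ms_nonneg (ha : ∀ n, 0 ≤ a n) (x H : ℕ → ℕ) (n : ℕ) : 0 ≤ Ms a x H n :=
  Finset.sum_nonneg fun m _ => ha m

lemma ev_small (ha0 : Tendsto a atTop (𝓝 0)) {x : ℕ → ℕ} (hx : Tendsto x atTop atTop) {δ : ℝ}
    (hδ : 0 < δ) : ∀ᶠ n in atTop, ∀ m, x n ≤ m → a (m + 1) ≤ δ := by
  obtain ⟨n₁, hn₁⟩ := eventually_atTop.1 (ha0.eventually (eventually_le_nhds hδ))
  filter_upwards [hx.eventually_ge_atTop n₁] with n hn m hm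
  exact hn₁ _ (by omega)

theorem prob_up (h : Model μ ℱ A a) (ha : ∀ n, 0 ≤ a n) (ha0 : Tendsto a atTop (𝓝 0))
    {x : ℕ → ℕ} (H : ℕ → ℕ) (hx : Tendsto x atTop atTop) {δ : ℝ} (hδ0 : 0 < δ) (hδ1 : δ ≤ 1) :
    ∀ᶠ n in atTop, μ.real (Em A (x n) (H n) \ WV (VD μ ℱ A a δ) (x n) (H n)) ≤
      Real.exp (-((1 - δ) * Ms a x H n)) := by
  filter_upwards [ev_small ha0 hx one_pos] with n hn
  have h1 := E_le (μ := μ) h.adapted (V := VD μ ℱ A a δ) (fun n => VD_meas δ n)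
    (fun m => (1 - δ) * a m) (x n) (B := univ) MeasurableSet.univ (H n)
    (fun m h1 h2 => by
      have h3 := hn m h1
      have h4 := ha (m + 1)
      show (1 - δ) * a (m + 1) ≤ 1
      nlinarith)
    (fun m h1 h2 ω hω => by
      simp only [VD, mem_ofPred_eq, not_not] at hω
      rw [abs_le] at hω
      show (1 - δ) * a (m + 1) ≤ _
      linarith [hω.1]) (H n) le_rfl
  rw [univ_inter, probReal_univ, mul_one, ← Finset.mul_sum] at h1
  exact h1

theorem prob_low (h : Model μ ℱ A a) (ha : ∀ n, 0 ≤ a n) (ha0 : Tendsto a atTop (𝓝 0))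
    {x : ℕ → ℕ} (H : ℕ → ℕ) (hx : Tendsto x atTop atTop) {δ : ℝ} (hδ0 : 0 < δ) (hδ1 : δ ≤ 1) :
    ∀ᶠ n in atTop, ∀ C, MeasurableSet[ℱ (x n)] C →
      Real.exp (-((1 + 2 * δ) * Ms a x H n)) * μ.real C ≤
        μ.real (C ∩ (Em A (x n) (H n) ∪ WV (VD μ ℱ A a δ) (x n) (H n))) := by
  filter_upwards [ev_small ha0 hx (show (0 : ℝ) < δ / 8 by positivity)] with n hn C hC
  have h1 := E_ge (μ := μ) h.adapted (V := VD μ ℱ A a δ) (fun n => VD_meas δ n)
    (fun m => (1 + δ) * a m) (x n) hC (H n)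
    (fun m h1 h2 => by
      have h3 := hn m h1
      have h4 := ha (m + 1)
      refine ⟨by positivity, ?_⟩
      show (1 + δ) * a (m + 1) ≤ 1 / 2
      nlinarith)
    (fun m h1 h2 ω hω => by
      simp only [VD, mem_ofPred_eq, not_not] at hω
      rw [abs_le] at hω
      show _ ≤ (1 + δ) * a (m + 1)
      linarith [hω.2]) (H n) le_rfl
  refine le_trans ?_ h1
  refine mul_le_mul_of_nonneg_right (Real.exp_le_exp.2 ?_) measureReal_nonneg
  rw [neg_le_neg_iff]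
  unfold Ms
  rw [Finset.mul_sum]
  refine Finset.sum_le_sum fun m hm => ?_
  rw [Finset.mem_Ioc] at hm
  have h3 := hn (m - 1) (by omega)
  rw [Nat.sub_add_cancel (by omega)] at h3
  have h4 := ha m
  have h5 : (1 + δ) ^ 2 ≤ 4 := by nlinarith
  have h6 : ((1 + δ) * a m) ^ 2 ≤ 4 * (a m * (δ / 8)) := by
    rw [mul_pow]
    have : a m ^ 2 ≤ a m * (δ / 8) := by nlinarith
    calc (1 + δ) ^ 2 * a m ^ 2 ≤ 4 * a m ^ 2 := mul_le_mul_of_nonneg_right h5 (sq_nonneg _)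
      _ ≤ 4 * (a m * (δ / 8)) := by linarith
  linarith

/-- almost surely there is no violation in the windows of large index -/
lemma no_WV (h : Model μ ℱ A a) {x : ℕ → ℕ} (H : ℕ → ℕ) (hx : Tendsto x atTop atTop) {δ : ℝ}
    (hδ : 0 < δ) : ∀ᵐ ω ∂μ, ∀ᶠ n in atTop, ω ∉ WV (VD μ ℱ A a δ) (x n) (H n) := by
  filter_upwards [no_VD h hδ] with ω hω
  obtain ⟨n₀, hn₀⟩ := hω
  filter_upwards [hx.eventually_ge_atTop n₀] with n hn hW
  obtain ⟨m, h1, h2, h3⟩ := hW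
  exact hn₀ m (by omega) h3

/-- windows with expected number `≥ (1 + ε) log n` are not empty -/
theorem hits (h : Model μ ℱ A a) (ha : ∀ n, 0 ≤ a n) (ha0 : Tendsto a atTop (𝓝 0))
    {x H : ℕ → ℕ} (hx : Tendsto x atTop atTop) {c : ℝ} (hc : 1 < c) (hM : HM a x H c) :
    ∀ᵐ ω ∂μ, ∀ᶠ n in atTop, ω ∉ Em A (x n) (H n) := by
  obtain ⟨δ, hδ0, hδ1, hδ2⟩ : ∃ δ : ℝ, 0 < δ ∧ δ ≤ 1 / 2 ∧ δ * (1 + c) ≤ (c - 1) / 2 :=
    ⟨min (1 / 2) ((c - 1) / 2 / (1 + c)), lt_min (by norm_num) (by apply div_pos <;> linarith),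
      min_le_left _ _, by
        have h1 := min_le_right (1 / 2) ((c - 1) / 2 / (1 + c))
        rwa [le_div_iff₀ (by linarith)] at h1⟩
  have hγ : 1 < (1 - δ) * (c - δ) := by nlinarith
  have h1 : ∀ᶠ n : ℕ in atTop, μ.real (Em A (x n) (H n) \ WV (VD μ ℱ A a δ) (x n) (H n)) ≤
      1 / (n : ℝ) ^ ((1 - δ) * (c - δ)) := by
    filter_upwards [prob_up h ha ha0 H hx hδ0 (by linarith), hM δ hδ0, eventually_gt_atTop 0]
      with n h1 h2 h3
    have hn : (0 : ℝ) < n := by exact_mod_cast h3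
    refine h1.trans ?_
    rw [one_div, ← Real.rpow_neg hn.le, Real.rpow_def_of_pos hn]
    refine Real.exp_le_exp.2 ?_
    have h4 : (1 - δ) * ((c - δ) * Real.log n) ≤ (1 - δ) * Ms a x H n :=
      mul_le_mul_of_nonneg_left h2.1 (by linarith)
    nlinarith
  have h2 := bc (Real.summable_one_div_nat_rpow.2 hγ) h1
  filter_upwards [h2, no_WV h H hx hδ0] with ω h3 h4
  filter_upwards [h3, h4] with n h5 h6 h7
  exact h5 ⟨h7, h6⟩

open Classical in
/-- the number of empty windows of index in `[2 ^ i, 2 ^ (i + 1))` -/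
noncomputable def Zc (A : ℕ → Set Ω) (x H : ℕ → ℕ) (i : ℕ) (ω : Ω) : ℕ :=
  ((Finset.Ico (2 ^ i) (2 ^ (i + 1))).filter fun n => ω ∈ Em A (x n) (H n)).card

lemma ev_block {P : ℕ → Prop} (h : ∀ᶠ n in atTop, P n) :
    ∀ᶠ i : ℕ in atTop, ∀ n ∈ Finset.Ico (2 ^ i) (2 ^ (i + 1)), P n := by
  obtain ⟨n₀, hn₀⟩ := eventually_atTop.1 h
  filter_upwards [eventually_ge_atTop n₀] with i hi n hn
  rw [Finset.mem_Ico] at hn
  exact hn₀ n (by have := Nat.lt_two_pow_self (n := i); omega)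

lemma log_block {i n : ℕ} (hn : n ∈ Finset.Ico (2 ^ i) (2 ^ (i + 1))) :
    i * Real.log 2 ≤ Real.log n ∧ Real.log n ≤ (i + 1) * Real.log 2 := by
  rw [Finset.mem_Ico] at hn
  have h0 : 0 < 2 ^ i := Nat.pos_of_ne_zero (by positivity)
  constructor
  · have h1 : Real.log ((2 : ℝ) ^ i) ≤ Real.log n := by
      apply Real.log_le_log (by positivity)
      exact_mod_cast hn.1
    rwa [Real.log_pow] at h1
  · have h1 : Real.log n ≤ Real.log ((2 : ℝ) ^ (i + 1)) := by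
      apply Real.log_le_log
      · have : 0 < n := by omega
        exact_mod_cast this
      · exact_mod_cast hn.2.le
    rw [Real.log_pow] at h1
    push_cast at h1
    exact h1

/-- upper bound for the number of empty windows -/
theorem count_up' (h : Model μ ℱ A a) (ha : ∀ n, 0 ≤ a n) (ha0 : Tendsto a atTop (𝓝 0))
    {x H : ℕ → ℕ} (hx : Tendsto x atTop atTop) {c : ℝ} (hc : 0 < c) (hM : HM a x H c) {ε : ℝ}
    (hε : 0 < ε) : ∀ᵐ ω ∂μ, ∀ᶠ i : ℕ in atTop, (Zc A x H i ω : ℝ) ≤ (2 : ℝ) ^ ((1 - c + ε) * i) := by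
  classical
  obtain ⟨δ, hδ0, hδ1, hδ2, hδ3⟩ : ∃ δ : ℝ, 0 < δ ∧ δ ≤ 1 / 2 ∧ δ * (1 + c) ≤ ε / 2 ∧ δ ≤ c :=
    ⟨min (min (1 / 2) c) (ε / 2 / (1 + c)), lt_min (lt_min (by norm_num) hc) (by positivity),
      (min_le_left _ _).trans (min_le_left _ _), by
        have h1 := min_le_right (min (1 / 2) c) (ε / 2 / (1 + c))
        rwa [le_div_iff₀ (by linarith)] at h1, (min_le_left _ _).trans (min_le_right _ _)⟩
  have hγ : c - ε / 2 ≤ (1 - δ) * (c - δ) := by nlinarith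
  obtain ⟨F, hF⟩ : ∃ F : ℕ → Set Ω, F = fun n => Em A (x n) (H n) \ WV (VD μ ℱ A a δ) (x n) (H n) :=
    ⟨_, rfl⟩
  have hFm : ∀ n, MeasurableSet (F n) := fun n => by
    rw [hF]
    exact (ℱ.le _ _ (Em_meas h.adapted (x n) _)).diff
      (ℱ.le _ _ (WV_meas (fun n => VD_meas δ n) (x n) _))
  have h1 : ∀ᶠ i : ℕ in atTop, ∀ n ∈ Finset.Ico (2 ^ i) (2 ^ (i + 1)),
      μ.real (F n) ≤ (2 : ℝ) ^ (-(c - ε / 2) * i) := by
    filter_upwards [ev_block (prob_up h ha ha0 H hx hδ0 (by linarith)), ev_block (hM δ hδ0)]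
      with i h1 h2 n hn
    rw [hF]
    refine (h1 n hn).trans ?_
    rw [two_rpow]
    refine Real.exp_le_exp.2 ?_
    obtain ⟨h3, -⟩ := log_block hn
    have h4 := (h2 n hn).1
    have h5 : (c - δ) * (i * Real.log 2) ≤ (c - δ) * Real.log n :=
      mul_le_mul_of_nonneg_left h3 (by linarith)
    have h6 : (1 - δ) * ((c - δ) * (i * Real.log 2)) ≤ (1 - δ) * Ms a x H n :=
      mul_le_mul_of_nonneg_left (h5.trans h4) (by linarith)
    have h7 : (c - ε / 2) * (i * Real.log 2) ≤ (1 - δ) * (c - δ) * (i * Real.log 2) :=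
      mul_le_mul_of_nonneg_right hγ (by positivity)
    nlinarith
  have h2 : ∀ᶠ i : ℕ in atTop, μ.real {ω | (2 : ℝ) ^ ((1 - c + ε) * i) <
      ∑ n ∈ Finset.Ico (2 ^ i) (2 ^ (i + 1)), (F n).indicator (fun _ => (1 : ℝ)) ω} ≤
      Real.exp (-((ε / 2 * Real.log 2) * i)) := by
    filter_upwards [h1] with i hi
    refine (markov (μ := μ) _ F (fun n _ => hFm n) (by positivity)).trans ?_
    rw [div_le_iff₀ (by positivity)]
    have h3 : ∑ n ∈ Finset.Ico (2 ^ i) (2 ^ (i + 1)), μ.real (F n) ≤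
        ∑ n ∈ Finset.Ico (2 ^ i) (2 ^ (i + 1)), (2 : ℝ) ^ (-(c - ε / 2) * i) :=
      Finset.sum_le_sum hi
    rw [Finset.sum_const, card_block, nsmul_eq_mul] at h3
    refine h3.trans (le_of_eq ?_)
    rw [two_rpow, two_rpow, ← Real.exp_add]
    push_cast
    rw [← Real.rpow_natCast, two_rpow, ← Real.exp_add]
    congr 1
    ring
  have h3 := bc (summable_exp_neg (show 0 < ε / 2 * Real.log 2 by positivity)) h2
  filter_upwards [h3, no_WV h H hx hδ0] with ω h4 h5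
  filter_upwards [h4, ev_block h5] with i h6 h7
  simp only [mem_ofPred_eq, not_lt] at h6
  refine le_trans (le_of_eq ?_) h6
  unfold Zc
  rw [Finset.card_filter, Nat.cast_sum]
  refine Finset.sum_congr rfl fun n hn => ?_
  rw [hF]
  by_cases h8 : ω ∈ Em A (x n) (H n)
  · rw [if_pos h8, indicator_of_mem (show ω ∈ Em A (x n) (H n) \ _ from ⟨h8, h7 n hn⟩), Nat.cast_one]
  · rw [if_neg h8, indicator_of_notMem (show ω ∉ Em A (x n) (H n) \ _ from fun h => h8 h.1),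
      Nat.cast_zero]

lemma big_exp {κ θ φ : ℝ} (hκ : 0 < κ) (hθ : 0 < θ) (hφ : φ < θ) : ∀ᶠ i : ℕ in atTop,
    (2 : ℝ) ^ (φ * i) - κ * (2 : ℝ) ^ (θ * i) ≤ -(1 * (i : ℝ)) := by
  -- `2 ^ (φ i) ≤ (κ/2) 2 ^ (θ i)` and `i ≤ (κ/2) 2 ^ (θ i)`
  have h1 : Tendsto (fun i : ℕ => (2 : ℝ) ^ ((φ - θ) * i)) atTop (𝓝 0) := by
    have h2 : Tendsto (fun i : ℕ => ((2 : ℝ) ^ (φ - θ)) ^ i) atTop (𝓝 0) := by
      apply tendsto_pow_atTop_nhds_zero_of_lt_one (by positivity)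
      exact Real.rpow_lt_one_of_one_lt_of_neg (by norm_num) (by linarith)
    refine h2.congr fun i => ?_
    rw [← Real.rpow_natCast, ← Real.rpow_mul (by norm_num)]
  have h3 : Tendsto (fun i : ℕ => (i : ℝ) * (2 : ℝ) ^ ((-θ) * i)) atTop (𝓝 0) := by
    have h4 := tendsto_self_mul_const_pow_of_lt_one (r := (2 : ℝ) ^ (-θ)) (by positivity)
      (Real.rpow_lt_one_of_one_lt_of_neg (by norm_num) (by linarith))
    refine h4.congr fun i => ?_
    rw [← Real.rpow_natCast, ← Real.rpow_mul (by norm_num)]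
  filter_upwards [h1.eventually (eventually_le_nhds (show (0 : ℝ) < κ / 2 by positivity)),
    h3.eventually (eventually_le_nhds (show (0 : ℝ) < κ / 2 by positivity))] with i h4 h5
  have hp : (0 : ℝ) < (2 : ℝ) ^ (θ * i) := by positivity
  have e1 : (2 : ℝ) ^ (φ * i) = (2 : ℝ) ^ ((φ - θ) * i) * (2 : ℝ) ^ (θ * i) := by
    rw [← Real.rpow_add (by norm_num)]
    congr 1
    ring
  have e2 : (i : ℝ) = (i : ℝ) * (2 : ℝ) ^ ((-θ) * i) * (2 : ℝ) ^ (θ * i) := by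
    rw [mul_assoc, ← Real.rpow_add (by norm_num)]
    rw [show (-θ) * (i : ℝ) + θ * i = 0 by ring, Real.rpow_zero, mul_one]
  have h6 := mul_le_mul_of_nonneg_right h4 hp.le
  have h7 := mul_le_mul_of_nonneg_right h5 hp.le
  rw [← e1] at h6
  rw [← e2] at h7
  linarith

/-- lower bound for the number of empty windows -/
theorem count_low' (h : Model μ ℱ A a) (ha : ∀ n, 0 ≤ a n) (ha0 : Tendsto a atTop (𝓝 0))
    {x H : ℕ → ℕ} (hx : Tendsto x atTop atTop) (hd : ∀ᶠ n in atTop, x n + H n ≤ x (n + 1))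
    {c : ℝ} (hc : 0 < c) (hM : HM a x H c) {ε : ℝ} (hε : 0 < ε) (hε1 : ε < 1 - c) :
    ∀ᵐ ω ∂μ, ∀ᶠ i : ℕ in atTop, (2 : ℝ) ^ ((1 - c - ε) * i) ≤ Zc A x H i ω := by
  classical
  obtain ⟨δ, hδ0, hδ1, hδ2⟩ : ∃ δ : ℝ, 0 < δ ∧ δ ≤ 1 / 2 ∧ δ * (2 + 2 * c) ≤ ε / 2 :=
    ⟨min (1 / 2) (ε / 2 / (2 + 2 * c)), lt_min (by norm_num) (by positivity), min_le_left _ _, by
        have h1 := min_le_right (1 / 2) (ε / 2 / (2 + 2 * c))
        rwa [le_div_iff₀ (by linarith)] at h1⟩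
  have hγ : (1 + 2 * δ) * (c + δ) ≤ c + ε / 2 := by nlinarith
  obtain ⟨n₁, hn₁⟩ := eventually_atTop.1 hd
  obtain ⟨s, hs⟩ : ∃ s : ℕ → ℕ, s = fun m => x (max m n₁) := ⟨_, rfl⟩
  have hsm : Monotone s := by
    apply monotone_nat_of_le_succ
    intro m
    rw [hs]
    show x (max m n₁) ≤ x (max (m + 1) n₁)
    rcases Nat.lt_or_ge m n₁ with h1 | h1
    · rw [max_eq_right h1.le, max_eq_right h1]
    · rw [max_eq_left h1, max_eq_left (by omega)]
      have := hn₁ m h1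
      omega
  obtain ⟨D, hD⟩ : ∃ D : ℕ → Set Ω, D = fun n => Em A (x n) (H n) ∪ WV (VD μ ℱ A a δ) (x n) (H n) :=
    ⟨_, rfl⟩
  obtain ⟨κ, hκ⟩ : ∃ κ : ℝ, κ = 1 - Real.exp (-1) := ⟨_, rfl⟩
  have hκ0 : 0 < κ := by
    have : Real.exp (-1) < 1 := Real.exp_lt_one_iff.2 (by norm_num)
    rw [hκ]
    linarith
  have h1 : ∀ᶠ i : ℕ in atTop, μ.real {ω | cs D (2 ^ i) (2 ^ i) ω ≤ ⌊(2 : ℝ) ^ ((1 - c - ε) * i)⌋₊} ≤
      Real.exp (-(1 * i)) := by
    filter_upwards [ev_block (prob_low h ha ha0 H hx hδ0 (by linarith)), ev_block (hM δ hδ0),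
      eventually_ge_atTop n₁, big_exp (κ := κ / 4) (θ := 1 - c - ε / 2) (φ := 1 - c - ε)
        (by positivity) (by linarith) (by linarith)] with i h1 h2 h3 h4
    have hin : ∀ m, 2 ^ i ≤ m → m < 2 ^ i + 2 ^ i → m ∈ Finset.Ico (2 ^ i) (2 ^ (i + 1)) := by
      intro m h5 h6
      rw [Finset.mem_Ico, pow_succ]
      omega
    have hge : ∀ m, 2 ^ i ≤ m → n₁ ≤ m := by
      intro m h5
      have := Nat.lt_two_pow_self (n := i)
      omega
    have h5 := low_tail (μ := μ) (ℱ := ℱ) D s hsm (fun _ => (2 : ℝ) ^ (-(c + ε / 2) * (i + 1))) (2 ^ i)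
      (2 ^ i)
      (fun m h6 h7 => by
        have h8 := hge m h6
        rw [hD, hs]
        show MeasurableSet[ℱ (x (max (m + 1) n₁))] _
        rw [max_eq_left (by omega)]
        exact ((ℱ.mono (hn₁ m h8) _ (Em_meas h.adapted (x m) _))).union
          (ℱ.mono (hn₁ m h8) _ (WV_meas (fun n => VD_meas δ n) (x m) _)))
      (fun m h6 h7 C hC => by
        have h8 := hge m h6
        rw [hs] at hC
        replace hC : MeasurableSet[ℱ (x (max m n₁))] C := hC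
        rw [max_eq_left h8] at hC
        rw [hD]
        refine le_trans ?_ (h1 m (hin m h6 h7) C hC)
        refine mul_le_mul_of_nonneg_right ?_ measureReal_nonneg
        rw [two_rpow]
        refine Real.exp_le_exp.2 ?_
        obtain ⟨-, h9⟩ := log_block (hin m h6 h7)
        have h10 := (h2 m (hin m h6 h7)).2
        have h11 : (c + δ) * Real.log m ≤ (c + δ) * ((i + 1) * Real.log 2) :=
          mul_le_mul_of_nonneg_left h9 (by linarith)
        have h12 : (1 + 2 * δ) * Ms a x H m ≤ (1 + 2 * δ) * ((c + δ) * ((i + 1) * Real.log 2)) :=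
          mul_le_mul_of_nonneg_left (h10.trans h11) (by linarith)
        have h13 : (1 + 2 * δ) * (c + δ) * ((i + 1) * Real.log 2) ≤
            (c + ε / 2) * ((i + 1) * Real.log 2) := mul_le_mul_of_nonneg_right hγ (by positivity)
        nlinarith)
      univ MeasurableSet.univ ⌊(2 : ℝ) ^ ((1 - c - ε) * i)⌋₊
    rw [univ_inter, probReal_univ, mul_one, ← hκ] at h5
    refine h5.trans (Real.exp_le_exp.2 ?_)
    refine le_trans ?_ h4
    have h6 : (⌊(2 : ℝ) ^ ((1 - c - ε) * i)⌋₊ : ℝ) ≤ (2 : ℝ) ^ ((1 - c - ε) * i) :=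
      Nat.floor_le (by positivity)
    have h7 : (2 : ℝ) ^ ((1 - c - ε / 2) * i) / 4 ≤
        ∑ m ∈ Finset.Ico (2 ^ i) (2 ^ i + 2 ^ i), (2 : ℝ) ^ (-(c + ε / 2) * ((i : ℝ) + 1)) := by
      rw [Finset.sum_const, Nat.card_Ico, Nat.add_sub_cancel_left, nsmul_eq_mul]
      push_cast
      rw [← Real.rpow_natCast, ← Real.rpow_add (by norm_num)]
      rw [div_le_iff₀ (by norm_num)]
      have e : (4 : ℝ) = (2 : ℝ) ^ (2 : ℝ) := by norm_num
      rw [e, ← Real.rpow_add (by norm_num)]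
      apply Real.rpow_le_rpow_of_exponent_le (by norm_num)
      nlinarith
    have h8 := mul_le_mul_of_nonneg_left h7 hκ0.le
    linarith
  have h2 := bc (summable_exp_neg (show (0 : ℝ) < 1 by norm_num)) h1
  filter_upwards [h2, no_WV h H hx hδ0] with ω h3 h4
  filter_upwards [h3, ev_block h4] with i h5 h6
  simp only [mem_ofPred_eq, not_le] at h5
  have h7 : cs D (2 ^ i) (2 ^ i) ω = Zc A x H i ω := by
    unfold cs Zc
    rw [Finset.card_filter, Finset.sum_Ico_eq_sum_range]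
    have e : 2 ^ (i + 1) - 2 ^ i = 2 ^ i := by rw [pow_succ]; omega
    rw [e]
    refine Finset.sum_congr rfl fun r hr => ?_
    rw [Finset.mem_range] at hr
    have h8 := h6 (2 ^ i + r) (by rw [Finset.mem_Ico, pow_succ]; omega)
    rw [hD]
    by_cases h9 : ω ∈ Em A (x (2 ^ i + r)) (H (2 ^ i + r))
    · rw [if_pos h9]
      exact if_pos (Or.inl h9)
    · rw [if_neg h9]
      exact if_neg (fun h => h.elim h9 h8)
  rw [h7] at h5
  have h8 := Nat.lt_floor_add_one ((2 : ℝ) ^ ((1 - c - ε) * (i : ℝ)))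
  have h9 : ((⌊(2 : ℝ) ^ ((1 - c - ε) * (i : ℝ))⌋₊ + 1 : ℕ) : ℝ) ≤ Zc A x H i ω := by
    exact_mod_cast h5
  push_cast at h9
  linarith

end Pool.Agent.U158.RW
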