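import Pool.Agent.U158.RW.Tail

set_option autoImplicit false
set_option linter.unusedSectionVars false
set_option linter.unusedVariables false

/-!
# The local counting law for empty windows (helper158)
-/

open MeasureTheory Filter Set
open scoped ENNReal Topology

namespace Pool.Agent.U158.RW

open Pool.Agent.R528.RM (dens WV dens_meas lower_meas upper_meas WV_meas)
open Pool.Agent.U462.Gap

variable {Ω : Type} {m0 : MeasurableSpace Ω} {μ : Measure Ω} [IsProbabilityMeasure μ]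
  {ℱ : Filtration ℕ m0} {A : ℕ → Set Ω} {a : ℕ → ℝ}

open Classical in
/-- the number of the `n ∈ (X, X + Y]` with an empty window `(n, n + c log² n]` -/
noncomputable def Nc (A : ℕ → Set Ω) (c : ℝ) (X Y : ℕ) (ω : Ω) : ℕ :=
  ((Finset.Ioc X (X + Y)).filter fun n => ω ∈ Em A n (wl c n)).card

lemma Nc_le (c : ℝ) (X Y : ℕ) (ω : Ω) : Nc A c X Y ω ≤ Y := by
  classical
  unfold Nc
  refine (Finset.card_filter_le _ _).trans ?_
  rw [Nat.card_Ioc]
  omega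

open Classical in
lemma cs_eq (D : ℕ → Set Ω) (j : ℕ) (ω : Ω) :
    cs D 0 j ω = ((Finset.range j).filter fun m => ω ∈ D m).card := by
  unfold cs
  rw [Finset.card_filter]
  refine Finset.sum_congr rfl fun r _ => ?_
  rw [zero_add]

lemma cs_le_Nc {D : ℕ → Set Ω} {c : ℝ} {X Y H j : ℕ} {ω : Ω} (hH : 0 < H) (hj : j * H ≤ Y)
    (hD : ∀ m, m < j → ω ∈ D m → ω ∈ Em A (X + 1 + m * H) (wl c (X + 1 + m * H))) :
    cs D 0 j ω ≤ Nc A c X Y ω := by
  classical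
  rw [cs_eq]
  unfold Nc
  refine Finset.card_le_card_of_injOn (fun m => X + 1 + m * H) ?_ ?_
  · intro m hm
    rw [Finset.mem_coe, Finset.mem_filter, Finset.mem_range] at hm
    rw [Finset.mem_coe, Finset.mem_filter, Finset.mem_Ioc]
    have h1 : (m + 1) * H ≤ j * H := Nat.mul_le_mul_right _ hm.1
    rw [Nat.add_mul, one_mul] at h1
    exact ⟨⟨by show X < X + 1 + m * H; omega, by show X + 1 + m * H ≤ X + Y; omega⟩, hD m hm.1 hm.2⟩
  · intro m _ m' _ h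
    have h1 : X + 1 + m * H = X + 1 + m' * H := h
    have h2 : m * H = m' * H := by omega
    exact Nat.eq_of_mul_eq_mul_right hH h2

lemma Nc_le_cs {D : ℕ → ℕ → Set Ω} {c : ℝ} {X Y H : ℕ} {ω : Ω} (hH : 0 < H)
    (hD : ∀ r m, X + 1 + r + m * H ≤ X + Y →
      ω ∈ Em A (X + 1 + r + m * H) (wl c (X + 1 + r + m * H)) → ω ∈ D r m) :
    Nc A c X Y ω ≤ ∑ r ∈ Finset.range H, cs (D r) 0 (Y / H + 1) ω := by
  classical
  unfold Nc
  rw [Finset.card_eq_sum_card_fiberwise (f := fun n => (n - X - 1) % H) (t := Finset.range H)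
    (fun n _ => by
      rw [Finset.coe_range]
      exact Nat.mod_lt _ hH)]
  refine Finset.sum_le_sum fun r hr => ?_
  rw [cs_eq]
  refine Finset.card_le_card_of_injOn (fun n => (n - X - 1) / H) ?_ ?_
  · intro n hn
    rw [Finset.mem_coe, Finset.mem_filter, Finset.mem_filter, Finset.mem_Ioc] at hn
    obtain ⟨⟨⟨h1, h2⟩, h3⟩, h4⟩ := hn
    rw [Finset.mem_coe, Finset.mem_filter, Finset.mem_range]
    have h5 := Nat.mod_add_div (n - X - 1) H
    rw [h4, mul_comm] at h5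
    have h6 : X + 1 + r + (n - X - 1) / H * H = n := by omega
    refine ⟨?_, hD r _ (by rw [h6]; exact h2) (by rw [h6]; exact h3)⟩
    exact Nat.lt_succ_of_le (Nat.div_le_div_right (by omega))
  · intro n hn n' hn' h
    rw [Finset.mem_coe, Finset.mem_filter, Finset.mem_filter, Finset.mem_Ioc] at hn hn'
    have h1 : (n - X - 1) / H = (n' - X - 1) / H := h
    have h5 := Nat.mod_add_div (n - X - 1) H
    have h6 := Nat.mod_add_div (n' - X - 1) H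
    rw [hn.2] at h5
    rw [hn'.2] at h6
    rw [h1] at h5
    have h7 : n - X - 1 = n' - X - 1 := h5.symm.trans h6
    have := hn.1.1.1
    have := hn'.1.1.1
    omega

/-- the trials for the lower bound -/
def Dl (μ : Measure Ω) (ℱ : Filtration ℕ m0) (A : ℕ → Set Ω) (a : ℕ → ℝ) (δ c : ℝ) (X H m : ℕ) : Set Ω :=
  Em A (X + 1 + m * H) (wl c (X + 1 + m * H)) ∪
    WV (VD μ ℱ A a δ) (X + 1 + m * H) (wl c (X + 1 + m * H))

open Classical in
/-- the trials for the upper bound -/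
noncomputable def Du (μ : Measure Ω) (ℱ : Filtration ℕ m0) (A : ℕ → Set Ω) (a : ℕ → ℝ) (δ c : ℝ)
    (X Y H r m : ℕ) : Set Ω :=
  if X + 1 + r + m * H ≤ X + Y then Em A (X + 1 + r + m * H) (wl c (X + 1 + r + m * H)) \
    WV (VD μ ℱ A a δ) (X + 1 + r + m * H) (wl c (X + 1 + r + m * H)) else ∅

lemma wl_lt {c : ℝ} (hc : 0 < c) {i t : ℕ} (h1 : 1 ≤ t) (h2 : t ≤ 2 ^ (i + 2)) : wl c t < HH c i :=
  Nat.lt_succ_of_le (wl_mono hc.le h1 h2)

lemma low_one (h : Model μ ℱ A a) (ha : ∀ n, 0 ≤ a n) (ha0 : Tendsto a atTop (𝓝 0))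
    {c : ℝ} (hc : 0 < c) (hM : HM a (fun n => n) (wl c) c) {ε : ℝ} (hε : 0 < ε) :
    ∃ δ : ℝ, 0 < δ ∧ ∀ᶠ i : ℕ in atTop, ∀ X Y : ℕ, 2 ^ i ≤ X → X < 2 ^ (i + 1) → Y ≤ 2 ^ (i + 1) →
      (2 : ℝ) ^ ((c + ε) * i) ≤ Y → ∀ K : ℕ, (K : ℝ) ≤ Y * (2 : ℝ) ^ (-(c + ε) * i) →
        μ.real {ω | cs (Dl μ ℱ A a δ c X (HH c i)) 0 (Y / HH c i) ω ≤ K} ≤ Real.exp (-(4 * i)) := by
  classical
  obtain ⟨δ, hδ, hlow⟩ := low_block h ha ha0 hc hM (show 0 < ε / 4 by linarith)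
  refine ⟨δ, hδ, ?_⟩
  obtain ⟨κ, hκ⟩ : ∃ κ : ℝ, κ = 1 - Real.exp (-1) := ⟨_, rfl⟩
  have hκ0 : 0 < κ := by
    have : Real.exp (-1) < 1 := Real.exp_lt_one_iff.2 (by norm_num)
    rw [hκ]
    linarith
  filter_upwards [hlow, HH_small hc (4 / κ) (show 0 < ε / 4 by linarith), HH_small hc 2 (show 0 < c + ε by linarith),
    lin_small 4 (show 0 < ε / 2 by linarith)] with i h1 h2 h3 h4 X Y hX1 hX2 hY1 hY2 K hK
  have hH : 0 < HH c i := Nat.succ_pos _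
  have hpow : 2 ^ (i + 2) = 2 * 2 ^ (i + 1) := by ring
  have hpos : ∀ m, m < Y / HH c i → X + 1 + m * HH c i ≤ 2 ^ (i + 2) := by
    intro m hm
    have h5 : (m + 1) * HH c i ≤ Y / HH c i * HH c i := Nat.mul_le_mul_right _ hm
    have h6 := Nat.div_mul_le_self Y (HH c i)
    rw [Nat.add_mul, one_mul] at h5
    omega
  have h5 := low_tail (μ := μ) (ℱ := ℱ) (Dl μ ℱ A a δ c X (HH c i)) (fun m => X + 1 + m * HH c i)
    (fun m m' hmm => by
      have := Nat.mul_le_mul_right (HH c i) hmm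
      show X + 1 + m * HH c i ≤ X + 1 + m' * HH c i
      omega) (fun _ => (2 : ℝ) ^ (-(c + ε / 4) * i)) (Y / HH c i) 0
    (fun m _ h6 => by
      rw [zero_add] at h6
      have h7 := wl_lt hc (i := i) (t := X + 1 + m * HH c i) (by omega) (hpos m h6)
      have h8 : X + 1 + m * HH c i + wl c (X + 1 + m * HH c i) ≤ X + 1 + (m + 1) * HH c i := by
        rw [Nat.add_mul, one_mul]
        omega
      exact (ℱ.mono h8 _ (Em_meas h.adapted _ _)).union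
        (ℱ.mono h8 _ (WV_meas (fun n => VD_meas δ n) _ _)))
    (fun m _ h6 C hC => by
      rw [zero_add] at h6
      exact h1 _ (by omega) (hpos m h6) C hC)
    univ MeasurableSet.univ K
  rw [univ_inter, probReal_univ, mul_one, ← hκ, zero_add, Finset.sum_const, Nat.card_Ico, Nat.sub_zero,
    nsmul_eq_mul] at h5
  refine h5.trans (Real.exp_le_exp.2 ?_)
  obtain ⟨y, hy⟩ : ∃ y : ℝ, y = (Y : ℝ) := ⟨_, rfl⟩
  obtain ⟨hh, hhh⟩ : ∃ hh : ℝ, hh = (HH c i : ℝ) := ⟨_, rfl⟩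
  obtain ⟨F, hF⟩ : ∃ F : ℝ, F = (2 : ℝ) ^ (-(c + ε / 2) * i) := ⟨_, rfl⟩
  have hh1 : 1 ≤ hh := by rw [hhh]; exact_mod_cast hH
  have hF0 : 0 < F := by rw [hF]; positivity
  have hy0 : 2 * hh ≤ y := by rw [hhh, hy]; linarith
  have h6 : y / (2 * hh) ≤ ((Y / HH c i : ℕ) : ℝ) := by
    have h7 : Y < (Y / HH c i + 1) * HH c i := by
      have := Nat.lt_div_mul_add (a := Y) hH
      rw [Nat.add_mul, one_mul]
      exact this
    have h8 : y < (((Y / HH c i : ℕ) : ℝ) + 1) * hh := by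
      rw [hy, hhh]
      exact_mod_cast h7
    rw [div_le_iff₀ (by positivity)]
    nlinarith
  have h7 : (2 : ℝ) ^ (-(c + ε / 4) * i) = (2 : ℝ) ^ (ε / 4 * i) * F := by
    rw [hF, ← Real.rpow_add (by norm_num)]
    congr 1
    ring
  have h8 : 4 * hh * F ≤ κ * (2 : ℝ) ^ (-(c + ε / 4) * i) := by
    rw [h7, ← mul_assoc]
    apply mul_le_mul_of_nonneg_right _ hF0.le
    rw [← hhh, div_mul_eq_mul_div, div_le_iff₀ hκ0] at h2
    linarith
  have h9 : 2 * y * F ≤ κ * (((Y / HH c i : ℕ) : ℝ) * (2 : ℝ) ^ (-(c + ε / 4) * i)) := by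
    have h10 : y / (2 * hh) * (4 * hh * F) ≤ ((Y / HH c i : ℕ) : ℝ) * (κ * (2 : ℝ) ^ (-(c + ε / 4) * i)) :=
      mul_le_mul h6 h8 (by positivity) (Nat.cast_nonneg _)
    have h11 : y / (2 * hh) * (4 * hh * F) = 2 * y * F := by
      have : 0 < hh := by linarith
      field_simp
      ring
    rw [h11] at h10
    linarith
  have h10 : (2 : ℝ) ^ (-(c + ε) * i) ≤ F := by
    rw [hF]
    apply Real.rpow_le_rpow_of_exponent_le (by norm_num)
    have : (0 : ℝ) ≤ i := Nat.cast_nonneg i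
    nlinarith
  have h11 : (K : ℝ) ≤ y * F := by
    rw [hy]
    exact hK.trans (mul_le_mul_of_nonneg_left h10 (Nat.cast_nonneg _))
  have h12 : (2 : ℝ) ^ (ε / 2 * i) ≤ y * F := by
    have e1 : (2 : ℝ) ^ (ε / 2 * i) = (2 : ℝ) ^ ((c + ε) * i) * F := by
      rw [hF, ← Real.rpow_add (by norm_num)]
      congr 1
      ring
    rw [e1, hy]
    exact mul_le_mul_of_nonneg_right hY2 hF0.le
  linarith

lemma up_one (h : Model μ ℱ A a) (ha : ∀ n, 0 ≤ a n) (ha0 : Tendsto a atTop (𝓝 0))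
    {c : ℝ} (hc : 0 < c) (hM : HM a (fun n => n) (wl c) c) {ε : ℝ} (hε : 0 < ε) :
    ∃ δ : ℝ, 0 < δ ∧ ∀ᶠ i : ℕ in atTop, ∀ X Y r : ℕ, 2 ^ i ≤ X → X < 2 ^ (i + 1) → Y ≤ 2 ^ (i + 1) →
      (2 : ℝ) ^ ((c + ε) * i) ≤ Y →
        μ.real {ω | Y * (2 : ℝ) ^ (-(c - ε / 2) * i) ≤
          cs (Du μ ℱ A a δ c X Y (HH c i) r) 0 (Y / HH c i + 1) ω} ≤ Real.exp (-(6 * i)) := by
  classical
  obtain ⟨δ, hδ, hup⟩ := up_block h ha ha0 hc hM (show 0 < ε / 4 by linarith)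
  refine ⟨δ, hδ, ?_⟩
  filter_upwards [hup, lin_small 12 (show 0 < 3 / 2 * ε by linarith), lin_small 8 (show 0 < ε / 4 by linarith),
    eventually_ge_atTop 1] with i h1 h2 h3 hi X Y r hX1 hX2 hY1 hY2
  have hH : 0 < HH c i := Nat.succ_pos _
  have hpow : 2 ^ (i + 2) = 2 * 2 ^ (i + 1) := by ring
  have h5 := up_tail (μ := μ) (ℱ := ℱ) (Du μ ℱ A a δ c X Y (HH c i) r) (fun m => X + 1 + r + m * HH c i)
    (fun m m' hmm => by
      have := Nat.mul_le_mul_right (HH c i) hmm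
      show X + 1 + r + m * HH c i ≤ X + 1 + r + m' * HH c i
      omega) (fun _ => (2 : ℝ) ^ (-(c - ε / 4) * i)) (Y / HH c i + 1) 0
    (fun m _ h6 => by
      unfold Du
      by_cases h9 : X + 1 + r + m * HH c i ≤ X + Y
      · rw [if_pos h9]
        have h7 := wl_lt hc (i := i) (t := X + 1 + r + m * HH c i) (by omega) (by omega)
        have h8 : X + 1 + r + m * HH c i + wl c (X + 1 + r + m * HH c i) ≤ X + 1 + r + (m + 1) * HH c i := by
          rw [Nat.add_mul, one_mul]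
          omega
        exact (ℱ.mono h8 _ (Em_meas h.adapted _ _)).diff
          (ℱ.mono h8 _ (WV_meas (fun n => VD_meas δ n) _ _))
      · rw [if_neg h9]
        exact @MeasurableSet.empty _ (ℱ _))
    (fun m _ h6 C hC => by
      unfold Du
      by_cases h9 : X + 1 + r + m * HH c i ≤ X + Y
      · rw [if_pos h9]
        exact h1 _ (by omega) C hC
      · rw [if_neg h9, inter_empty, measureReal_empty]
        positivity)
    univ MeasurableSet.univ (Y * (2 : ℝ) ^ (-(c - ε / 2) * i))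
  rw [univ_inter, probReal_univ, mul_one, zero_add, Finset.sum_const, Nat.card_Ico, Nat.sub_zero,
    nsmul_eq_mul] at h5
  refine h5.trans (Real.exp_le_exp.2 ?_)
  obtain ⟨y, hy⟩ : ∃ y : ℝ, y = (Y : ℝ) := ⟨_, rfl⟩
  obtain ⟨G, hG⟩ : ∃ G : ℝ, G = (2 : ℝ) ^ (-(c - ε / 2) * i) := ⟨_, rfl⟩
  obtain ⟨q, hq⟩ : ∃ q : ℝ, q = (2 : ℝ) ^ (-(c - ε / 4) * i) := ⟨_, rfl⟩
  rw [← hG, ← hq, ← hy]
  rw [← hy] at hY2
  have hG0 : 0 < G := by rw [hG]; positivity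
  have hq0 : 0 < q := by rw [hq]; positivity
  have hi0 : (1 : ℝ) ≤ i := by exact_mod_cast hi
  have hy1 : 1 ≤ y := by
    refine le_trans ?_ hY2
    apply Real.one_le_rpow (by norm_num)
    positivity
  have e1 : G = (2 : ℝ) ^ (ε / 4 * i) * q := by
    rw [hG, hq, ← Real.rpow_add (by norm_num)]
    congr 1
    ring
  have h6 : 8 * q ≤ G := by
    rw [e1]
    apply mul_le_mul_of_nonneg_right _ hq0.le
    linarith
  have h7 : (((Y / HH c i + 1 : ℕ) : ℝ)) ≤ 2 * y := by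
    have h8 : ((Y / HH c i : ℕ) : ℝ) ≤ y := by
      rw [hy]
      exact_mod_cast Nat.div_le_self _ _
    push_cast
    linarith
  have h8 : Real.exp 1 - 1 ≤ 2 := by
    have := Real.exp_one_lt_d9
    linarith
  have h8' : 0 ≤ Real.exp 1 - 1 := by
    have : (1 : ℝ) ≤ Real.exp 1 := Real.one_le_exp (by norm_num)
    linarith
  have h9 : (Real.exp 1 - 1) * ((((Y / HH c i + 1 : ℕ) : ℝ)) * q) ≤ 2 * ((2 * y) * q) :=
    mul_le_mul h8 (mul_le_mul_of_nonneg_right h7 hq0.le) (by positivity) (by norm_num)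
  have h10 : (2 : ℝ) ^ (3 / 2 * ε * i) ≤ y * G := by
    have e2 : (2 : ℝ) ^ (3 / 2 * ε * i) = (2 : ℝ) ^ ((c + ε) * i) * G := by
      rw [hG, ← Real.rpow_add (by norm_num)]
      congr 1
      ring
    rw [e2]
    exact mul_le_mul_of_nonneg_right hY2 hG0.le
  have h11 : y * (8 * q) ≤ y * G := mul_le_mul_of_nonneg_left h6 (by linarith)
  nlinarith

lemma four_pow_le (i : ℕ) (hi : 2 ≤ i) : (4 : ℝ) * 4 ^ i ≤ Real.exp (3 * i) := by
  have h1 : (2 : ℝ) ≤ Real.exp 1 := by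
    have := Real.add_one_le_exp (1 : ℝ); linarith
  have h2 : (2 : ℝ) ^ (2 * i + 2) ≤ (Real.exp 1) ^ (2 * i + 2) := pow_le_pow_left₀ (by norm_num) h1 _
  have h3 : (Real.exp 1) ^ (2 * i + 2) ≤ (Real.exp 1) ^ (3 * i) :=
    pow_le_pow_right₀ (by linarith) (by omega)
  have h4 : (Real.exp 1) ^ (3 * i) = Real.exp (3 * i) := by
    rw [← Real.exp_nat_mul]
    push_cast
    rw [mul_one]
  have h5 : (4 : ℝ) * 4 ^ i = (2 : ℝ) ^ (2 * i + 2) := by
    rw [pow_add, pow_mul]; norm_num; ring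
  rw [h5]
  linarith

/-- the pairs `(X, Y)` of a block -/
noncomputable def SS (φ : ℝ) (i : ℕ) : Finset (ℕ × ℕ) :=
  (Finset.Ico (2 ^ i) (2 ^ (i + 1)) ×ˢ Finset.range (2 ^ (i + 1) + 1)).filter
    (fun q => (2 : ℝ) ^ (φ * i) ≤ q.2)

lemma card_SS (φ : ℝ) (i : ℕ) : ((SS φ i).card : ℝ) ≤ 4 * 4 ^ i := by
  have h1 : (SS φ i).card ≤ 2 ^ i * (2 ^ (i + 1) + 1) := by
    refine (Finset.card_filter_le _ _).trans ?_
    rw [Finset.card_product, card_block, Finset.card_range]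
  have h2 : 2 ^ i * (2 ^ (i + 1) + 1) ≤ 4 * 4 ^ i := by
    have h3 : 1 ≤ 2 ^ (i + 1) := Nat.one_le_two_pow
    have h4 : 2 ^ i * (2 ^ (i + 1) + 1) ≤ 2 ^ i * (2 ^ (i + 1) + 2 ^ (i + 1)) := by
      apply Nat.mul_le_mul_left
      omega
    refine h4.trans (le_of_eq ?_)
    have : 4 ^ i = 2 ^ i * 2 ^ i := by rw [show (4 : ℕ) = 2 * 2 from rfl, mul_pow]
    rw [this]
    ring
  exact_mod_cast h1.trans h2

theorem local_low (h : Model μ ℱ A a) (ha : ∀ n, 0 ≤ a n) (ha0 : Tendsto a atTop (𝓝 0))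
    {c : ℝ} (hc : 0 < c) (hM : HM a (fun n => n) (wl c) c) {ε : ℝ} (hε : 0 < ε) :
    ∀ᵐ ω ∂μ, ∀ᶠ X : ℕ in atTop, ∀ Y : ℕ, (X : ℝ) ^ (c + ε) ≤ Y → Y ≤ X →
      (Y : ℝ) * (X : ℝ) ^ (-(c + ε)) ≤ Nc A c X Y ω := by
  classical
  obtain ⟨δ, hδ, h1⟩ := low_one h ha ha0 hc hM hε
  have h2 : ∀ᶠ i : ℕ in atTop, μ.real (⋃ q ∈ SS (c + ε) i,
      {ω | cs (Dl μ ℱ A a δ c q.1 (HH c i)) 0 (q.2 / HH c i) ω ≤ ⌊(q.2 : ℝ) * (2 : ℝ) ^ (-(c + ε) * i)⌋₊}) ≤
      Real.exp (-(1 * i)) := by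
    filter_upwards [h1, eventually_ge_atTop 2] with i h1 hi
    refine (measureReal_biUnion_finset_le _ _).trans ?_
    have h3 : ∀ q ∈ SS (c + ε) i, μ.real {ω | cs (Dl μ ℱ A a δ c q.1 (HH c i)) 0 (q.2 / HH c i) ω ≤
        ⌊(q.2 : ℝ) * (2 : ℝ) ^ (-(c + ε) * i)⌋₊} ≤ Real.exp (-(4 * i)) := by
      intro q hq
      unfold SS at hq
      rw [Finset.mem_filter, Finset.mem_product, Finset.mem_Ico, Finset.mem_range] at hq
      exact h1 q.1 q.2 hq.1.1.1 hq.1.1.2 (by omega) hq.2 _ (Nat.floor_le (by positivity))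
    refine (Finset.sum_le_sum h3).trans ?_
    rw [Finset.sum_const, nsmul_eq_mul]
    have h4 := (card_SS (c + ε) i).trans (four_pow_le i hi)
    refine (mul_le_mul_of_nonneg_right h4 (Real.exp_pos _).le).trans (le_of_eq ?_)
    rw [← Real.exp_add]
    congr 1
    ring
  have h3 := bc (summable_exp_neg (show (0 : ℝ) < 1 by norm_num)) h2
  filter_upwards [h3, no_WV (x := fun n => n) h (wl c) tendsto_id hδ] with ω h4 h5
  obtain ⟨n₀, hn₀⟩ := eventually_atTop.1 h5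
  obtain ⟨i₀, hi₀⟩ := eventually_atTop.1 h4
  filter_upwards [eventually_ge_atTop n₀, eventually_ge_atTop (2 ^ i₀)] with X hX1 hX2 Y hY1 hY2
  obtain ⟨i, hi⟩ : ∃ i, i = Nat.log 2 X := ⟨_, rfl⟩
  have hX0 : X ≠ 0 := by
    have : 0 < 2 ^ i₀ := Nat.pos_of_ne_zero (by positivity)
    omega
  have hiX : 2 ^ i ≤ X := by rw [hi]; exact Nat.pow_log_le_self 2 hX0
  have hiX2 : X < 2 ^ (i + 1) := by rw [hi]; exact Nat.lt_pow_succ_log_self (by norm_num) X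
  have hii : i₀ ≤ i := by
    rw [hi]
    exact (Nat.le_log_iff_pow_le (by norm_num) hX0).2 hX2
  have h6 := hi₀ i hii
  simp only [mem_iUnion, not_exists] at h6
  have hp2 : (2 : ℝ) ^ ((c + ε) * i) ≤ (X : ℝ) ^ (c + ε) := by
    rw [mul_comm, Real.rpow_mul (by norm_num), Real.rpow_natCast]
    apply Real.rpow_le_rpow (by positivity) _ (by linarith)
    exact_mod_cast hiX
  have h7 := h6 (X, Y) (by
    unfold SS
    rw [Finset.mem_filter, Finset.mem_product, Finset.mem_Ico, Finset.mem_range]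
    exact ⟨⟨⟨hiX, hiX2⟩, by show Y < 2 ^ (i + 1) + 1; omega⟩, hp2.trans hY1⟩)
  rw [mem_ofPred_eq, not_le] at h7
  have hH : 0 < HH c i := Nat.succ_pos _
  have h8 := cs_le_Nc (A := A) (D := Dl μ ℱ A a δ c X (HH c i)) (c := c) (X := X) (Y := Y) (H := HH c i)
    (j := Y / HH c i) (ω := ω) hH (Nat.div_mul_le_self _ _) (fun m _ hm => by
      rcases hm with hm | hm
      · exact hm
      · exact absurd hm (hn₀ _ (by omega)))
  have h9 := Nat.lt_floor_add_one ((Y : ℝ) * (2 : ℝ) ^ (-(c + ε) * (i : ℝ)))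
  have h10 : ((⌊(Y : ℝ) * (2 : ℝ) ^ (-(c + ε) * (i : ℝ))⌋₊ + 1 : ℕ) : ℝ) ≤ Nc A c X Y ω := by
    exact_mod_cast (lt_of_lt_of_le h7 h8)
  push_cast at h10
  have h11 : (X : ℝ) ^ (-(c + ε)) ≤ (2 : ℝ) ^ (-(c + ε) * (i : ℝ)) := by
    rw [neg_mul, Real.rpow_neg (by norm_num), Real.rpow_neg (by positivity)]
    exact inv_anti₀ (by positivity) hp2
  have h12 := mul_le_mul_of_nonneg_left h11 (Nat.cast_nonneg (α := ℝ) Y)
  linarith

theorem local_up (h : Model μ ℱ A a) (ha : ∀ n, 0 ≤ a n) (ha0 : Tendsto a atTop (𝓝 0))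
    {c : ℝ} (hc : 0 < c) (hM : HM a (fun n => n) (wl c) c) {ε : ℝ} (hε : 0 < ε) :
    ∀ᵐ ω ∂μ, ∀ᶠ X : ℕ in atTop, ∀ Y : ℕ, (X : ℝ) ^ (c + ε) ≤ Y → Y ≤ X →
      (Nc A c X Y ω : ℝ) ≤ (Y : ℝ) * (X : ℝ) ^ (-(c - ε)) := by
  classical
  obtain ⟨δ, hδ, h1⟩ := up_one h ha ha0 hc hM hε
  have h2 : ∀ᶠ i : ℕ in atTop, μ.real (⋃ q ∈ SS (c + ε) i, ⋃ r ∈ Finset.range (HH c i),
      {ω | (q.2 : ℝ) * (2 : ℝ) ^ (-(c - ε / 2) * i) ≤
        cs (Du μ ℱ A a δ c q.1 q.2 (HH c i) r) 0 (q.2 / HH c i + 1) ω}) ≤ Real.exp (-(1 * i)) := by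
    filter_upwards [h1, eventually_ge_atTop 2, HH_small hc 1 (show (0 : ℝ) < 1 by norm_num)] with i h1 hi hHi
    refine (measureReal_biUnion_finset_le _ _).trans ?_
    have h3 : ∀ q ∈ SS (c + ε) i, μ.real (⋃ r ∈ Finset.range (HH c i),
        {ω | (q.2 : ℝ) * (2 : ℝ) ^ (-(c - ε / 2) * i) ≤
          cs (Du μ ℱ A a δ c q.1 q.2 (HH c i) r) 0 (q.2 / HH c i + 1) ω}) ≤ Real.exp (-(5 * i)) := by
      intro q hq
      unfold SS at hq
      rw [Finset.mem_filter, Finset.mem_product, Finset.mem_Ico, Finset.mem_range] at hq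
      refine (measureReal_biUnion_finset_le _ _).trans ?_
      refine (Finset.sum_le_sum fun r _ => h1 q.1 q.2 r hq.1.1.1 hq.1.1.2 (by omega) hq.2).trans ?_
      rw [Finset.sum_const, Finset.card_range, nsmul_eq_mul]
      have h4 : (HH c i : ℝ) ≤ Real.exp i := by
        have h5 : (2 : ℝ) ^ ((1 : ℝ) * i) ≤ Real.exp i := by
          rw [one_mul, two_rpow]
          apply Real.exp_le_exp.2
          have hl := Real.log_two_lt_d9
          have : (0 : ℝ) ≤ i := Nat.cast_nonneg i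
          nlinarith
        linarith
      refine (mul_le_mul_of_nonneg_right h4 (Real.exp_pos _).le).trans (le_of_eq ?_)
      rw [← Real.exp_add]
      congr 1
      ring
    refine (Finset.sum_le_sum h3).trans ?_
    rw [Finset.sum_const, nsmul_eq_mul]
    have h4 := (card_SS (c + ε) i).trans (four_pow_le i hi)
    refine (mul_le_mul_of_nonneg_right h4 (Real.exp_pos _).le).trans ?_
    rw [← Real.exp_add]
    apply Real.exp_le_exp.2
    have : (0 : ℝ) ≤ i := Nat.cast_nonneg i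
    linarith
  have h3 := bc (summable_exp_neg (show (0 : ℝ) < 1 by norm_num)) h2
  filter_upwards [h3, no_WV (x := fun n => n) h (wl c) tendsto_id hδ] with ω h4 h5
  obtain ⟨n₀, hn₀⟩ := eventually_atTop.1 h5
  obtain ⟨i₀, hi₀⟩ := eventually_atTop.1 h4
  obtain ⟨i₁, hi₁⟩ := eventually_atTop.1 (HH_small hc ((2 : ℝ) ^ c) (show (0 : ℝ) < ε / 2 by linarith))
  filter_upwards [eventually_ge_atTop n₀, eventually_ge_atTop (2 ^ i₀), eventually_ge_atTop (2 ^ i₁)]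
    with X hX1 hX2 hX3 Y hY1 hY2
  obtain ⟨i, hi⟩ : ∃ i, i = Nat.log 2 X := ⟨_, rfl⟩
  have hX0 : X ≠ 0 := by
    have : 0 < 2 ^ i₀ := Nat.pos_of_ne_zero (by positivity)
    omega
  have hiX : 2 ^ i ≤ X := by rw [hi]; exact Nat.pow_log_le_self 2 hX0
  have hiX2 : X < 2 ^ (i + 1) := by rw [hi]; exact Nat.lt_pow_succ_log_self (by norm_num) X
  have hii : i₀ ≤ i := by
    rw [hi]
    exact (Nat.le_log_iff_pow_le (by norm_num) hX0).2 hX2
  have hii1 : i₁ ≤ i := by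
    rw [hi]
    exact (Nat.le_log_iff_pow_le (by norm_num) hX0).2 hX3
  have hXr : (1 : ℝ) ≤ X := by exact_mod_cast Nat.one_le_iff_ne_zero.2 hX0
  rcases le_or_gt (c - ε) 0 with hce | hce
  · have h6 : (Nc A c X Y ω : ℝ) ≤ Y := by exact_mod_cast Nc_le c X Y ω
    have h7 : (1 : ℝ) ≤ (X : ℝ) ^ (-(c - ε)) := Real.one_le_rpow hXr (by linarith)
    have h8 : (0 : ℝ) ≤ Y := Nat.cast_nonneg Y
    nlinarith
  have h6 := hi₀ i hii
  simp only [mem_iUnion, not_exists] at h6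
  have hp2 : (2 : ℝ) ^ ((c + ε) * i) ≤ (X : ℝ) ^ (c + ε) := by
    rw [mul_comm, Real.rpow_mul (by norm_num), Real.rpow_natCast]
    apply Real.rpow_le_rpow (by positivity) _ (by linarith)
    exact_mod_cast hiX
  have h7 := h6 (X, Y) (by
    unfold SS
    rw [Finset.mem_filter, Finset.mem_product, Finset.mem_Ico, Finset.mem_range]
    exact ⟨⟨⟨hiX, hiX2⟩, by show Y < 2 ^ (i + 1) + 1; omega⟩, hp2.trans hY1⟩)
  have hH : 0 < HH c i := Nat.succ_pos _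
  have h8 := Nc_le_cs (A := A) (D := Du μ ℱ A a δ c X Y (HH c i)) (c := c) (X := X) (Y := Y) (H := HH c i)
    (ω := ω) hH (fun r m h9 h10 => by
      unfold Du
      rw [if_pos h9]
      exact ⟨h10, hn₀ _ (by omega)⟩)
  have h9 : ((∑ r ∈ Finset.range (HH c i), cs (Du μ ℱ A a δ c X Y (HH c i) r) 0 (Y / HH c i + 1) ω : ℕ) : ℝ) ≤
      HH c i * ((Y : ℝ) * (2 : ℝ) ^ (-(c - ε / 2) * i)) := by
    push_cast
    have h10 : ∀ r ∈ Finset.range (HH c i), ((cs (Du μ ℱ A a δ c X Y (HH c i) r) 0 (Y / HH c i + 1) ω : ℕ) : ℝ) ≤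
        (Y : ℝ) * (2 : ℝ) ^ (-(c - ε / 2) * i) := by
      intro r hr
      have h10 := h7 r hr
      rw [mem_ofPred_eq, not_le] at h10
      exact h10.le
    refine (Finset.sum_le_sum h10).trans (le_of_eq ?_)
    rw [Finset.sum_const, Finset.card_range, nsmul_eq_mul]
  have h10 : (Nc A c X Y ω : ℝ) ≤ HH c i * ((Y : ℝ) * (2 : ℝ) ^ (-(c - ε / 2) * i)) :=
    le_trans (by exact_mod_cast h8) h9
  refine h10.trans ?_
  have h11 : (2 : ℝ) ^ (-(c - ε) * (i + 1)) ≤ (X : ℝ) ^ (-(c - ε)) := by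
    rw [neg_mul, Real.rpow_neg (by norm_num), Real.rpow_neg (by positivity)]
    refine inv_anti₀ (by positivity) ?_
    rw [mul_comm, Real.rpow_mul (by norm_num)]
    apply Real.rpow_le_rpow (by positivity) _ hce.le
    have e : (2 : ℝ) ^ ((i : ℝ) + 1) = (2 : ℝ) ^ (i + 1) := by
      rw [← Real.rpow_natCast]; push_cast; ring_nf
    rw [e]
    exact_mod_cast hiX2.le
  have h12 := hi₁ i hii1
  have h13 : (HH c i : ℝ) * (2 : ℝ) ^ (-(c - ε / 2) * i) ≤ (2 : ℝ) ^ (-(c - ε) * (i + 1)) := by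
    have e1 : (2 : ℝ) ^ (-(c - ε / 2) * i) * ((2 : ℝ) ^ c)⁻¹ * (2 : ℝ) ^ (ε / 2 * i) ≤
        (2 : ℝ) ^ (-(c - ε) * (i + 1)) := by
      rw [← Real.rpow_neg (by norm_num), ← Real.rpow_add (by norm_num), ← Real.rpow_add (by norm_num)]
      apply Real.rpow_le_rpow_of_exponent_le (by norm_num)
      nlinarith
    refine le_trans ?_ e1
    have h14 : (HH c i : ℝ) ≤ ((2 : ℝ) ^ c)⁻¹ * (2 : ℝ) ^ (ε / 2 * i) := by
      rw [inv_mul_eq_div, le_div_iff₀ (by positivity), mul_comm]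
      exact h12
    calc (HH c i : ℝ) * (2 : ℝ) ^ (-(c - ε / 2) * i)
        ≤ ((2 : ℝ) ^ c)⁻¹ * (2 : ℝ) ^ (ε / 2 * i) * (2 : ℝ) ^ (-(c - ε / 2) * i) :=
          mul_le_mul_of_nonneg_right h14 (by positivity)
      _ = (2 : ℝ) ^ (-(c - ε / 2) * i) * ((2 : ℝ) ^ c)⁻¹ * (2 : ℝ) ^ (ε / 2 * i) := by ring
  have h14 := mul_le_mul_of_nonneg_left (h13.trans h11) (Nat.cast_nonneg (α := ℝ) Y)
  calc (HH c i : ℝ) * ((Y : ℝ) * (2 : ℝ) ^ (-(c - ε / 2) * i))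
      = (Y : ℝ) * ((HH c i : ℝ) * (2 : ℝ) ^ (-(c - ε / 2) * i)) := by ring
    _ ≤ _ := h14

end Pool.Agent.U158.RW
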