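import Pool.Agent.U158.RW.Gen
import Pool.Agent.Helper601.PNT

set_option autoImplicit false
set_option linter.unusedSectionVars false
set_option linter.unusedVariables false

/-!
# Expected numbers in the windows `(x, x + c log x log n]`, and the size of the `n`-th prime
-/

open MeasureTheory Filter Set
open scoped ENNReal Topology

namespace Pool.Agent.U158.RW

open Pool.Agent.U462.Gap

/-- the length of the window is `(c + o(1)) log x(n) log n` -/
def HW (x H : ℕ → ℕ) (c : ℝ) : Prop := ∀ η : ℝ, 0 < η → ∀ᶠ n : ℕ in atTop,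
  (c - η) * (Real.log (x n) * Real.log n) ≤ H n ∧ (H n : ℝ) ≤ (c + η) * (Real.log (x n) * Real.log n)

/-- `T` is smaller than every power of `log n` -/
def Tiny (T : ℕ → ℕ) : Prop := ∀ κ : ℝ, 0 < κ → ∀ᶠ n : ℕ in atTop, (T n : ℝ) ≤ Real.log n ^ κ

theorem mass {T : ℕ → ℕ} (hT : Monotone T) (hTs : Tiny T) {x H : ℕ → ℕ} (hx : ∀ᶠ n in atTop, n ≤ x n)
    {c : ℝ} (hc : 0 < c) (hW : HW x H c) : HM (aT T) x H c := by
  intro η' hη'
  -- reduce to a small `η`
  obtain ⟨η, hη0, hη1, hη2, hη3⟩ : ∃ η : ℝ, 0 < η ∧ η ≤ 1 / 2 ∧ η ≤ c / 2 ∧ η * (4 * c + 4) ≤ η' :=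
    ⟨min (min (1 / 2) (c / 2)) (η' / (4 * c + 4)), lt_min (lt_min (by norm_num) (by linarith))
      (by positivity), (min_le_left _ _).trans (min_le_left _ _),
      (min_le_left _ _).trans (min_le_right _ _), by
        have h1 := min_le_right (min (1 / 2) (c / 2)) (η' / (4 * c + 4))
        rwa [le_div_iff₀ (by linarith)] at h1⟩
  obtain ⟨R, hR, hRδ⟩ := exists_R (η / 2) (by positivity)
  obtain ⟨D, hD⟩ : ∃ D : ℕ, D = 8 * R + 18 := ⟨_, rfl⟩
  have hD0 : (0 : ℝ) < D := by rw [hD]; positivity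
  have hxt : Tendsto x atTop atTop := tendsto_atTop_mono' _ hx tendsto_id
  have h2x : Tendsto (fun n : ℕ => 2 * x n) atTop atTop := by
    refine tendsto_atTop_mono (fun n => ?_) hxt
    show x n ≤ 2 * x n
    omega
  have hlx : Tendsto (fun n : ℕ => Real.log (x n : ℝ)) atTop atTop := tlog.comp hxt
  -- the window is short
  have hsq : ∀ᶠ n : ℕ in atTop, (c + 1) * Real.log (x n) ^ 2 ≤ x n := by
    have h3 := (Real.isLittleO_pow_log_id_atTop (n := 2)).def (show (0 : ℝ) < 1 / (c + 1) by positivity)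
    filter_upwards [(tendsto_natCast_atTop_atTop.comp hxt).eventually h3] with n h3
    simp only [Function.comp, id] at h3
    rw [Real.norm_of_nonneg (by positivity), Real.norm_of_nonneg (by positivity)] at h3
    have h8 : (c + 1) * Real.log (x n) ^ 2 ≤ (c + 1) * (1 / (c + 1) * x n) :=
      mul_le_mul_of_nonneg_left h3 (by positivity)
    have h9 : (c + 1) * (1 / (c + 1) * x n) = (x n : ℝ) := by field_simp
    linarith
  filter_upwards [h2x.eventually (hTs (1 / D) (by positivity)), hsq, hW η hη0, hx,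
    hlx.eventually_ge_atTop 1, tlog.eventually_ge_atTop 1,
    tlog.eventually_ge_atTop (3 ^ D * 2 / (η / 2 * (c / 2))), hlx.eventually_ge_atTop (1 / η),
    eventually_ge_atTop 2] with n g1 g2 g3 g4 g5 g6 g7 g8 g9
  have hn0 : (0 : ℝ) < n := by exact_mod_cast (by omega : 0 < n)
  have hx0 : (0 : ℝ) < x n := by exact_mod_cast (by omega : 0 < x n)
  obtain ⟨L, hL⟩ : ∃ L, L = Real.log (x n : ℝ) := ⟨_, rfl⟩
  obtain ⟨l, hl⟩ : ∃ l, l = Real.log (n : ℝ) := ⟨_, rfl⟩
  obtain ⟨K, hK⟩ : ∃ K, K = H n := ⟨_, rfl⟩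
  have hlL : l ≤ L := by
    rw [hl, hL]
    exact Real.log_le_log hn0 (by exact_mod_cast g4)
  rw [← hL] at g2 g3 g5 g8
  rw [← hl] at g3 g6 g7 ⊢
  rw [← hK] at g3
  obtain ⟨g3l, g3u⟩ := g3
  have hl0 : 0 < l := by linarith
  have hL0 : 0 < L := by linarith
  have hKx : K ≤ x n := by
    have h1 : (K : ℝ) ≤ (c + 1) * L ^ 2 := by
      refine g3u.trans ?_
      have h2 : L * l ≤ L ^ 2 := by nlinarith
      have h3 : (c + η) * (L * l) ≤ (c + 1) * (L * l) :=
        mul_le_mul_of_nonneg_right (by linarith) (by positivity)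
      have h4 : (c + 1) * (L * l) ≤ (c + 1) * L ^ 2 := mul_le_mul_of_nonneg_left h2 (by linarith)
      linarith
    have h2 : (K : ℝ) ≤ x n := h1.trans g2
    exact_mod_cast h2
  have h1 := sum_window R hR T hT (x n) K (T (2 * x n)) (hT (by omega))
  rw [← hD] at h1
  have hL2 : Real.log ((2 * x n : ℕ) : ℝ) ≤ L + 1 := by
    push_cast
    rw [Real.log_mul (by norm_num) hx0.ne', ← hL]
    have := Real.log_two_lt_d9
    linarith
  have h2 : ((T (2 * x n) : ℝ) + 2) ^ D ≤ 3 ^ D * 2 * L := by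
    have hl1 : 1 ≤ Real.log ((2 * x n : ℕ) : ℝ) := by
      refine g5.trans ?_
      rw [hL]
      apply Real.log_le_log hx0
      push_cast
      linarith
    have h4 : (1 : ℝ) ≤ (Real.log ((2 * x n : ℕ) : ℝ)) ^ (1 / (D : ℝ)) :=
      Real.one_le_rpow hl1 (by positivity)
    calc ((T (2 * x n) : ℝ) + 2) ^ D ≤ (3 * (Real.log ((2 * x n : ℕ) : ℝ)) ^ (1 / (D : ℝ))) ^ D := by
          apply pow_le_pow_left₀ (by positivity)
          linarith
      _ = 3 ^ D * Real.log ((2 * x n : ℕ) : ℝ) := by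
          rw [mul_pow, ← Real.rpow_natCast ((Real.log ((2 * x n : ℕ) : ℝ)) ^ (1 / (D : ℝ))) D,
            ← Real.rpow_mul (by linarith), one_div, inv_mul_cancel₀ hD0.ne', Real.rpow_one]
      _ ≤ 3 ^ D * (2 * L) := by
          apply mul_le_mul_of_nonneg_left _ (by positivity)
          linarith
      _ = 3 ^ D * 2 * L := by ring
  have hKlow : c / 2 * (L * l) ≤ K := by
    refine le_trans ?_ g3l
    exact mul_le_mul_of_nonneg_right (by linarith) (by positivity)
  have h3 : 3 ^ D * 2 * L ≤ η / 2 * K := by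
    rw [div_le_iff₀ (by positivity)] at g7
    calc 3 ^ D * 2 * L ≤ (l * (η / 2 * (c / 2))) * L := mul_le_mul_of_nonneg_right g7 hL0.le
      _ = η / 2 * (c / 2 * (L * l)) := by ring
      _ ≤ η / 2 * K := mul_le_mul_of_nonneg_left hKlow (by positivity)
  have h4 : (2 : ℝ) ^ 25 * (1 / 2) ^ (2 * R) * K ≤ η / 2 * K :=
    mul_le_mul_of_nonneg_right hRδ (Nat.cast_nonneg K)
  rw [abs_le] at h1
  obtain ⟨Sg, hSg⟩ : ∃ Sg, Sg = ∑ m ∈ Finset.Ioc (x n) (x n + K), fT T m := ⟨_, rfl⟩
  rw [← hSg] at h1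
  have hup : Sg ≤ (1 + η) * K := by linarith [h1.2]
  have hlo : (1 - η) * K ≤ Sg := by linarith [h1.1]
  have hlogs : ∀ m ∈ Finset.Ioc (x n) (x n + K), L ≤ Real.log m ∧ Real.log m ≤ L + 1 := by
    intro m hm
    rw [Finset.mem_Ioc] at hm
    constructor
    · rw [hL]
      exact Real.log_le_log hx0 (by exact_mod_cast hm.1.le)
    · refine le_trans ?_ hL2
      have h5 : (0 : ℝ) < m := by
        have : 0 < m := by omega
        exact_mod_cast this
      apply Real.log_le_log h5
      have : m ≤ 2 * x n := by omega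
      exact_mod_cast this
  have hηL : 1 ≤ η * L := by
    rw [div_le_iff₀ hη0] at g8
    linarith
  constructor
  · have h5 : Sg / (L + 1) ≤ Ms (aT T) x H n := by
      unfold Ms
      rw [← hK, hSg, Finset.sum_div]
      apply Finset.sum_le_sum
      intro m hm
      obtain ⟨h6, h7⟩ := hlogs m hm
      exact div_le_div_of_nonneg_left (fT_nonneg T m) (by linarith) h7
    refine le_trans ?_ h5
    rw [le_div_iff₀ (by linarith)]
    refine le_trans ?_ hlo
    have h6 : (1 - η) * ((c - η) * (L * l)) ≤ (1 - η) * K :=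
      mul_le_mul_of_nonneg_left g3l (by linarith)
    refine le_trans ?_ h6
    -- `(c - η') l (L + 1) ≤ (1 - η) (c - η) L l`
    have h7 : (c - η') * (L + 1) ≤ (1 - η) * (c - η) * L := by
      rcases le_or_gt (c - η') 0 with h8 | h8
      · have h9 : 0 ≤ (1 - η) * (c - η) * L :=
          mul_nonneg (mul_nonneg (by linarith) (by linarith)) hL0.le
        nlinarith
      · have h9 : (c - η') * (L + 1) ≤ (c - η') * ((1 + η) * L) :=
          mul_le_mul_of_nonneg_left (by linarith) h8.le
        have h10 : (c - η') * (1 + η) ≤ (1 - η) * (c - η) := by nlinarith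
        have h11 := mul_le_mul_of_nonneg_right h10 hL0.le
        linarith
    have h8 := mul_le_mul_of_nonneg_right h7 hl0.le
    linarith
  · have h5 : Ms (aT T) x H n ≤ Sg / L := by
      unfold Ms
      rw [← hK, hSg, Finset.sum_div]
      apply Finset.sum_le_sum
      intro m hm
      obtain ⟨h6, h7⟩ := hlogs m hm
      exact div_le_div_of_nonneg_left (fT_nonneg T m) hL0 h6
    refine h5.trans ?_
    rw [div_le_iff₀ hL0]
    refine hup.trans ?_
    have h6 : (1 + η) * K ≤ (1 + η) * ((c + η) * (L * l)) :=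
      mul_le_mul_of_nonneg_left g3u (by linarith)
    refine h6.trans ?_
    have h10 : (1 + η) * (c + η) ≤ c + η' := by nlinarith
    have h11 := mul_le_mul_of_nonneg_right h10 (show 0 ≤ l * L by positivity)
    linarith

/-- the `n`-th prime, `pn 1 = 2` -/
noncomputable def pn (n : ℕ) : ℕ := Nat.nth Nat.Prime (n - 1)

lemma pi_ev {η : ℝ} (hη : 0 < η) : ∀ᶠ y : ℝ in atTop,
    (1 - η) * (y / Real.log y) ≤ Nat.primeCounting ⌊y⌋₊ ∧
      (Nat.primeCounting ⌊y⌋₊ : ℝ) ≤ (1 + η) * (y / Real.log y) := by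
  have h1 := Metric.tendsto_atTop.1 Pool.Agent.Helper601.PNT.pi_tendsto η hη
  obtain ⟨N, hN⟩ := h1
  filter_upwards [eventually_ge_atTop N, eventually_gt_atTop 1] with y h2 h3
  have h4 := hN y h2
  rw [Real.dist_eq, abs_lt] at h4
  have hl : 0 < Real.log y := Real.log_pos h3
  have hy : 0 < y := by linarith
  have e : (Nat.primeCounting ⌊y⌋₊ : ℝ) =
      (Nat.primeCounting ⌊y⌋₊ : ℝ) * Real.log y / y * (y / Real.log y) := by
    field_simp
  have h5 : 0 < y / Real.log y := by positivity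
  constructor
  · rw [e]
    exact mul_le_mul_of_nonneg_right (by linarith [h4.1]) h5.le
  · rw [e]
    exact mul_le_mul_of_nonneg_right (by linarith [h4.2]) h5.le

lemma log_log_small {η : ℝ} (hη : 0 < η) : ∀ᶠ n : ℕ in atTop,
    Real.log (2 * Real.log n) ≤ η * Real.log n := by
  have h1 := Real.isLittleO_log_id_atTop.def (show (0 : ℝ) < η / 2 by positivity)
  have h2 : Tendsto (fun n : ℕ => 2 * Real.log (n : ℝ)) atTop atTop := tlog.const_mul_atTop (by norm_num)
  filter_upwards [h2.eventually h1, tlog.eventually_ge_atTop 1] with n h3 h4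
  rw [id, Real.norm_of_nonneg (Real.log_nonneg (by linarith)), Real.norm_of_nonneg (by linarith)] at h3
  linarith

/-- the prime number theorem for the `n`-th prime -/
theorem pn_ev {η : ℝ} (hη : 0 < η) (hη1 : η < 1) : ∀ᶠ n : ℕ in atTop,
    (1 - η) * (n * Real.log n) ≤ pn n ∧ (pn n : ℝ) ≤ (1 + η) * (n * Real.log n) := by
  have ht : ∀ b : ℝ, 0 < b → Tendsto (fun n : ℕ => b * (n * Real.log (n : ℝ))) atTop atTop := by
    intro b hb
    exact (tendsto_natCast_atTop_atTop.atTop_mul_atTop₀ tlog).const_mul_atTop hb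
  filter_upwards [(ht (1 - η) (by linarith)).eventually (pi_ev (show 0 < η / 4 by positivity)),
    (ht (1 + η) (by linarith)).eventually (pi_ev (show 0 < η / 4 by positivity)),
    log_log_small (show 0 < η / 4 by positivity), tlog.eventually_ge_atTop (1 / (1 - η)),
    tlog.eventually_ge_atTop 1, eventually_ge_atTop 2] with n h1 h2 h3 h4 h5 h6
  have hn : (2 : ℝ) ≤ n := by exact_mod_cast h6
  obtain ⟨l, hl⟩ : ∃ l, l = Real.log (n : ℝ) := ⟨_, rfl⟩
  rw [← hl] at h1 h2 h3 h4 h5 ⊢
  have hl0 : 0 < l := by linarith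
  constructor
  · -- `π(y) < n`
    by_contra hcon
    push Not at hcon
    have e1 : 1 ≤ (1 - η) * l := by
      rw [div_le_iff₀ (by linarith)] at h4
      linarith
    have hy : (n : ℝ) ≤ (1 - η) * (n * l) := by nlinarith
    have hly : l ≤ Real.log ((1 - η) * (n * l)) := by
      have h := Real.log_le_log (show (0 : ℝ) < n by linarith) hy
      rw [← hl] at h
      exact h
    have h7 := h1.2
    have h8 : (1 - η) * (n * l) / Real.log ((1 - η) * (n * l)) ≤ (1 - η) * n := by
      rw [div_le_iff₀ (by linarith)]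
      have h9 : (1 - η) * n * l ≤ (1 - η) * n * Real.log ((1 - η) * (n * l)) :=
        mul_le_mul_of_nonneg_left hly (mul_nonneg (by linarith) (by linarith))
      linarith
    have h9 : (Nat.primeCounting ⌊(1 - η) * (n * l)⌋₊ : ℝ) < n := by
      refine lt_of_le_of_lt (h7.trans (mul_le_mul_of_nonneg_left h8 (by linarith))) ?_
      have h10 : (1 + η / 4) * (1 - η) < 1 := by nlinarith
      nlinarith
    have h10 : Nat.primeCounting ⌊(1 - η) * (n * l)⌋₊ < n := by exact_mod_cast h9
    have h11 : pn n ≤ ⌊(1 - η) * (n * l)⌋₊ := Nat.le_floor hcon.le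
    have h12 : Nat.primeCounting (pn n) ≤ Nat.primeCounting ⌊(1 - η) * (n * l)⌋₊ :=
      Nat.monotone_primeCounting h11
    have h13 : Nat.primeCounting (pn n) = n := by
      unfold pn Nat.primeCounting Nat.primeCounting'
      rw [Nat.count_succ, if_pos (Nat.prime_nth_prime _),
        Nat.count_nth_of_infinite Nat.infinite_setOfPred_prime]
      omega
    omega
  · -- `π(y) ≥ n`
    have hyl : Real.log ((1 + η) * (n * l)) ≤ (1 + η / 4) * l := by
      have hnl : 0 < (n : ℝ) * l := by positivity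
      have e1 : (1 + η) * (n * l) ≤ n * (2 * l) := by
        have := mul_le_mul_of_nonneg_right (show 1 + η ≤ 2 by linarith) hnl.le
        linarith
      have e2 : Real.log ((1 + η) * (n * l)) ≤ Real.log (n * (2 * l)) :=
        Real.log_le_log (by positivity) e1
      have e3 : Real.log ((n : ℝ) * (2 * l)) = l + Real.log (2 * l) := by
        rw [Real.log_mul (by positivity) (by positivity), ← hl]
      linarith
    have hy1 : 1 < (1 + η) * (n * l) := by
      have h7 : 2 * 1 ≤ (n : ℝ) * l := mul_le_mul hn h5 (by norm_num) (by linarith)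
      have h8 : 0 ≤ η * (n * l) := by positivity
      linarith
    have hly0 : 0 < Real.log ((1 + η) * (n * l)) := Real.log_pos hy1
    have h7 : (1 + η) * n / (1 + η / 4) ≤ (1 + η) * (n * l) / Real.log ((1 + η) * (n * l)) := by
      rw [div_le_div_iff₀ (by linarith) hly0]
      have := mul_le_mul_of_nonneg_left hyl (show 0 ≤ (1 + η) * n by positivity)
      linarith
    have h8 : (n : ℝ) ≤ Nat.primeCounting ⌊(1 + η) * (n * l)⌋₊ := by
      refine le_trans ?_ h2.1
      refine le_trans ?_ (mul_le_mul_of_nonneg_left h7 (by linarith))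
      rw [mul_div_assoc', le_div_iff₀ (by linarith)]
      have : (1 + η / 4) ≤ (1 - η / 4) * (1 + η) := by nlinarith
      have h9 := mul_le_mul_of_nonneg_right this (show (0 : ℝ) ≤ n by linarith)
      linarith
    have h9 : n ≤ Nat.primeCounting ⌊(1 + η) * (n * l)⌋₊ := by exact_mod_cast h8
    have h10 : pn n ≤ ⌊(1 + η) * (n * l)⌋₊ := by
      unfold pn
      unfold Nat.primeCounting Nat.primeCounting' at h9
      have : n - 1 < Nat.count Nat.Prime (⌊(1 + η) * (n * l)⌋₊ + 1) := by omega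
      have := Nat.nth_lt_of_lt_count this
      omega
    have h11 : (pn n : ℝ) ≤ ⌊(1 + η) * (n * l)⌋₊ := by exact_mod_cast h10
    exact h11.trans (Nat.floor_le (by positivity))

end Pool.Agent.U158.RW
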