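import Pool.Agent.U158.RW.Fin

set_option autoImplicit false
set_option linter.unusedSectionVars false
set_option linter.unusedVariables false

/-!
# Upper tails, and probabilities in a block (helper158)
-/

open MeasureTheory Filter Set
open scoped ENNReal Topology

namespace Pool.Agent.U158.RW

open Pool.Agent.R528.RM (dens WV dens_meas lower_meas upper_meas WV_meas)
open Pool.Agent.U462.Gap

variable {Ω : Type} {m0 : MeasurableSpace Ω} {μ : Measure Ω} [IsProbabilityMeasure μ]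
  {ℱ : Filtration ℕ m0} {A : ℕ → Set Ω} {a : ℕ → ℝ}

/-- upper tail of the number of successes -/
theorem up_tail (D : ℕ → Set Ω) (s : ℕ → ℕ) (hs : Monotone s) (p : ℕ → ℝ) (j : ℕ) :
    ∀ a, (∀ m, a ≤ m → m < a + j → MeasurableSet[ℱ (s (m + 1))] (D m)) →
      (∀ m, a ≤ m → m < a + j → ∀ C, MeasurableSet[ℱ (s m)] C → μ.real (C ∩ D m) ≤ p m * μ.real C) →
      ∀ B, MeasurableSet[ℱ (s a)] B → ∀ K : ℝ,
        μ.real (B ∩ {ω | K ≤ cs D a j ω}) ≤
          Real.exp (-K + (Real.exp 1 - 1) * ∑ m ∈ Finset.Ico a (a + j), p m) * μ.real B := by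
  have hκ : 0 ≤ Real.exp 1 - 1 := by
    have : (1 : ℝ) ≤ Real.exp 1 := Real.one_le_exp (by norm_num)
    linarith
  induction j with
  | zero =>
    intro a _ _ B _ K
    simp only [add_zero, Finset.Ico_self, Finset.sum_empty, mul_zero, add_zero]
    rcases le_or_gt K 0 with hK | hK
    · have h1 : μ.real (B ∩ {ω | K ≤ cs D a 0 ω}) ≤ μ.real B := measureReal_mono inter_subset_left
      have h2 : (1 : ℝ) ≤ Real.exp (-K) := Real.one_le_exp (by linarith)
      have h3 : 0 ≤ μ.real B := measureReal_nonneg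
      nlinarith
    · have : {ω : Ω | K ≤ cs D a 0 ω} = ∅ := by
        ext ω
        simp only [mem_ofPred_eq, mem_empty_iff_false, iff_false, not_le]
        have : cs D a 0 ω = 0 := by unfold cs; simp
        rw [this]
        exact_mod_cast hK
      rw [this, inter_empty, measureReal_empty]
      positivity
  | succ j ih =>
    intro a hD hp B hB K
    have ih := ih (a + 1) (fun m h1 h2 => hD m (by omega) (by omega)) (fun m h1 h2 => hp m (by omega) (by omega))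
    have hDa := hD a le_rfl (by omega)
    have hDa' : MeasurableSet (D a) := ℱ.le _ _ hDa
    have hB1 : MeasurableSet[ℱ (s (a + 1))] B := ℱ.mono (hs (Nat.le_succ a)) _ hB
    have h1 := ih (B \ D a) (hB1.diff hDa) K
    have h2 := ih (B ∩ D a) (hB1.inter hDa) (K - 1)
    have hsub : B ∩ {ω | K ≤ cs D a (j + 1) ω} ⊆
        ((B \ D a) ∩ {ω | K ≤ cs D (a + 1) j ω}) ∪ ((B ∩ D a) ∩ {ω | K - 1 ≤ cs D (a + 1) j ω}) := by
      rintro ω ⟨h3, h4⟩
      rw [mem_ofPred_eq, cs_succ] at h4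
      by_cases h5 : ω ∈ D a
      · right
        rw [if_pos h5] at h4
        push_cast at h4
        exact ⟨⟨h3, h5⟩, by rw [mem_ofPred_eq]; linarith⟩
      · left
        rw [if_neg h5, add_zero] at h4
        exact ⟨⟨h3, h5⟩, h4⟩
    have h3 := (measureReal_mono (μ := μ) hsub).trans (measureReal_union_le _ _)
    have h4 := hp a le_rfl (by omega) B hB
    have h5 := measureReal_inter_add_sdiff (μ := μ) (s := B) hDa'
    obtain ⟨E, hE⟩ : ∃ E, E = (Real.exp 1 - 1) * ∑ m ∈ Finset.Ico (a + 1) (a + 1 + j), p m := ⟨_, rfl⟩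
    rw [← hE] at h1 h2
    have h6 : Real.exp (-(K - 1) + E) = Real.exp 1 * Real.exp (-K + E) := by
      rw [← Real.exp_add]; congr 1; ring
    rw [h6] at h2
    have h7 : ∑ m ∈ Finset.Ico a (a + (j + 1)), p m = p a + ∑ m ∈ Finset.Ico (a + 1) (a + 1 + j), p m := by
      rw [← Finset.sum_eq_sum_Ico_succ_bot (by omega)]
      congr 2
      ring
    have h8 : Real.exp (-K + (Real.exp 1 - 1) * ∑ m ∈ Finset.Ico a (a + (j + 1)), p m) =
        Real.exp ((Real.exp 1 - 1) * p a) * Real.exp (-K + E) := by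
      rw [h7, ← Real.exp_add, hE]
      congr 1
      ring
    rw [h8]
    have h9 : 1 + (Real.exp 1 - 1) * p a ≤ Real.exp ((Real.exp 1 - 1) * p a) := by
      have := Real.add_one_le_exp ((Real.exp 1 - 1) * p a)
      linarith
    have h10 : 0 ≤ μ.real B := measureReal_nonneg
    have h11 : 0 < Real.exp (-K + E) := Real.exp_pos _
    calc μ.real (B ∩ {ω | K ≤ cs D a (j + 1) ω})
        ≤ Real.exp (-K + E) * μ.real (B \ D a) + Real.exp 1 * Real.exp (-K + E) * μ.real (B ∩ D a) := by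
          linarith
      _ = Real.exp (-K + E) * (μ.real B + (Real.exp 1 - 1) * μ.real (B ∩ D a)) := by
          rw [← h5]; ring
      _ ≤ Real.exp (-K + E) * (μ.real B + (Real.exp 1 - 1) * (p a * μ.real B)) := by
          apply mul_le_mul_of_nonneg_left _ h11.le
          have := mul_le_mul_of_nonneg_left h4 hκ
          linarith
      _ = (1 + (Real.exp 1 - 1) * p a) * (Real.exp (-K + E) * μ.real B) := by ring
      _ ≤ Real.exp ((Real.exp 1 - 1) * p a) * (Real.exp (-K + E) * μ.real B) :=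
          mul_le_mul_of_nonneg_right h9 (by positivity)
      _ = Real.exp ((Real.exp 1 - 1) * p a) * Real.exp (-K + E) * μ.real B := by ring

lemma HW_wl {c : ℝ} (hc : 0 < c) : HW (fun n => n) (wl c) c := by
  intro η hη
  have h1 : Tendsto (fun n : ℕ => Real.log (n : ℝ)) atTop atTop :=
    Real.tendsto_log_atTop.comp tendsto_natCast_atTop_atTop
  filter_upwards [h1.eventually_ge_atTop 1, h1.eventually_ge_atTop (1 / η)] with n h2 h3
  have h4 : 1 ≤ η * (Real.log n * Real.log n) := by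
    rw [div_le_iff₀ hη] at h3
    nlinarith
  have h5 : (wl c n : ℝ) ≤ c * Real.log n ^ 2 := Nat.floor_le (by positivity)
  have h6 : c * Real.log n ^ 2 < wl c n + 1 := Nat.lt_floor_add_one _
  constructor
  · show (c - η) * (Real.log n * Real.log n) ≤ wl c n
    nlinarith
  · show (wl c n : ℝ) ≤ (c + η) * (Real.log n * Real.log n)
    nlinarith

theorem prob_up_C (h : Model μ ℱ A a) (ha : ∀ n, 0 ≤ a n) (ha0 : Tendsto a atTop (𝓝 0))
    {x : ℕ → ℕ} (H : ℕ → ℕ) (hx : Tendsto x atTop atTop) {δ : ℝ} (hδ0 : 0 < δ) (hδ1 : δ ≤ 1) :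
    ∀ᶠ n in atTop, ∀ C, MeasurableSet[ℱ (x n)] C →
      μ.real (C ∩ (Em A (x n) (H n) \ WV (VD μ ℱ A a δ) (x n) (H n))) ≤
        Real.exp (-((1 - δ) * Ms a x H n)) * μ.real C := by
  filter_upwards [ev_small ha0 hx one_pos] with n hn C hC
  have h1 := E_le (μ := μ) h.adapted (V := VD μ ℱ A a δ) (fun n => VD_meas δ n)
    (fun m => (1 - δ) * a m) (x n) (B := C) hC (H n)
    (fun m h1 h2 => by
      have h3 := hn m h1
      have h4 := ha (m + 1)
      show (1 - δ) * a (m + 1) ≤ 1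
      nlinarith)
    (fun m h1 h2 ω hω => by
      simp only [VD, mem_ofPred_eq, not_not] at hω
      rw [abs_le] at hω
      show (1 - δ) * a (m + 1) ≤ _
      linarith [hω.1]) (H n) le_rfl
  rw [← Finset.mul_sum] at h1
  refine le_trans (measureReal_mono ?_) h1
  rintro ω ⟨h2, h3, h4⟩
  exact ⟨⟨h2, h3⟩, h4⟩

lemma ev_block2 {P : ℕ → Prop} (h : ∀ᶠ n in atTop, P n) :
    ∀ᶠ i : ℕ in atTop, ∀ n, 2 ^ i ≤ n → P n := by
  obtain ⟨n₀, hn₀⟩ := eventually_atTop.1 h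
  filter_upwards [eventually_ge_atTop n₀] with i hi n hn
  exact hn₀ n (by have := Nat.lt_two_pow_self (n := i); omega)

lemma log_ge {i n : ℕ} (hn : 2 ^ i ≤ n) : i * Real.log 2 ≤ Real.log n := by
  have h1 : Real.log ((2 : ℝ) ^ i) ≤ Real.log n := by
    apply Real.log_le_log (by positivity)
    exact_mod_cast hn
  rwa [Real.log_pow] at h1

lemma log_le {i n : ℕ} (h0 : 0 < n) (hn : n ≤ 2 ^ i) : Real.log n ≤ i * Real.log 2 := by
  have h1 : Real.log n ≤ Real.log ((2 : ℝ) ^ i) := by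
    apply Real.log_le_log (by exact_mod_cast h0)
    exact_mod_cast hn
  rwa [Real.log_pow] at h1

/-- upper bounds for the probabilities in a block -/
lemma up_block (h : Model μ ℱ A a) (ha : ∀ n, 0 ≤ a n) (ha0 : Tendsto a atTop (𝓝 0))
    {H : ℕ → ℕ} {c : ℝ} (hc : 0 < c) (hM : HM a (fun n => n) H c) {ε : ℝ} (hε : 0 < ε) :
    ∃ δ : ℝ, 0 < δ ∧ ∀ᶠ i : ℕ in atTop, ∀ t : ℕ, 2 ^ i ≤ t → ∀ C, MeasurableSet[ℱ t] C →
      μ.real (C ∩ (Em A t (H t) \ WV (VD μ ℱ A a δ) t (H t))) ≤ (2 : ℝ) ^ (-(c - ε) * i) * μ.real C := by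
  obtain ⟨δ, hδ0, hδ1, hδ2, hδ3⟩ : ∃ δ : ℝ, 0 < δ ∧ δ ≤ 1 / 2 ∧ δ * (1 + c) ≤ ε ∧ δ ≤ c :=
    ⟨min (min (1 / 2) c) (ε / (1 + c)), lt_min (lt_min (by norm_num) hc) (by positivity),
      (min_le_left _ _).trans (min_le_left _ _), by
        have h1 := min_le_right (min (1 / 2) c) (ε / (1 + c))
        rwa [le_div_iff₀ (by linarith)] at h1, (min_le_left _ _).trans (min_le_right _ _)⟩
  have hγ : c - ε ≤ (1 - δ) * (c - δ) := by nlinarith
  refine ⟨δ, hδ0, ?_⟩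
  filter_upwards [ev_block2 (prob_up_C (x := fun n => n) h ha ha0 H tendsto_id hδ0 (by linarith)),
    ev_block2 (hM δ hδ0)] with i h1 h2 t ht C hC
  refine (h1 t ht C hC).trans ?_
  refine mul_le_mul_of_nonneg_right ?_ measureReal_nonneg
  rw [two_rpow]
  refine Real.exp_le_exp.2 ?_
  have h3 := log_ge ht
  have h4 := (h2 t ht).1
  have hl2 : 0 < Real.log 2 := Real.log_pos (by norm_num)
  have h5 : (c - δ) * (i * Real.log 2) ≤ (c - δ) * Real.log t :=
    mul_le_mul_of_nonneg_left h3 (by linarith)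
  have h6 : (1 - δ) * ((c - δ) * (i * Real.log 2)) ≤ (1 - δ) * Ms a (fun n => n) H t :=
    mul_le_mul_of_nonneg_left (h5.trans h4) (by linarith)
  have h7 : (c - ε) * (i * Real.log 2) ≤ (1 - δ) * (c - δ) * (i * Real.log 2) :=
    mul_le_mul_of_nonneg_right hγ (by positivity)
  nlinarith

/-- lower bounds for the probabilities in a block -/
lemma low_block (h : Model μ ℱ A a) (ha : ∀ n, 0 ≤ a n) (ha0 : Tendsto a atTop (𝓝 0))
    {H : ℕ → ℕ} {c : ℝ} (hc : 0 < c) (hM : HM a (fun n => n) H c) {ε : ℝ} (hε : 0 < ε) :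
    ∃ δ : ℝ, 0 < δ ∧ ∀ᶠ i : ℕ in atTop, ∀ t : ℕ, 2 ^ i ≤ t → t ≤ 2 ^ (i + 2) →
      ∀ C, MeasurableSet[ℱ t] C → (2 : ℝ) ^ (-(c + ε) * i) * μ.real C ≤
        μ.real (C ∩ (Em A t (H t) ∪ WV (VD μ ℱ A a δ) t (H t))) := by
  obtain ⟨δ, hδ0, hδ1, hδ2⟩ : ∃ δ : ℝ, 0 < δ ∧ δ ≤ 1 / 2 ∧ δ * (2 + 2 * c) ≤ ε / 2 :=
    ⟨min (1 / 2) (ε / 2 / (2 + 2 * c)), lt_min (by norm_num) (by positivity), min_le_left _ _, by
        have h1 := min_le_right (1 / 2) (ε / 2 / (2 + 2 * c))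
        rwa [le_div_iff₀ (by linarith)] at h1⟩
  have hγ : (1 + 2 * δ) * (c + δ) ≤ c + ε / 2 := by nlinarith
  refine ⟨δ, hδ0, ?_⟩
  filter_upwards [ev_block2 (prob_low (x := fun n => n) h ha ha0 H tendsto_id hδ0 (by linarith)),
    ev_block2 (hM δ hδ0), eventually_ge_atTop (⌈2 * (c + ε / 2) / (ε / 2)⌉₊)] with i h1 h2 h3 t ht ht2 C hC
  refine le_trans ?_ (h1 t ht C hC)
  refine mul_le_mul_of_nonneg_right ?_ measureReal_nonneg
  rw [two_rpow]
  refine Real.exp_le_exp.2 ?_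
  have h0 : 0 < t := by
    have : 0 < 2 ^ i := Nat.pos_of_ne_zero (by positivity)
    omega
  have h4 := log_le h0 ht2
  push_cast at h4
  have h5 := (h2 t ht).2
  have hl2 : 0 < Real.log 2 := Real.log_pos (by norm_num)
  have h6 : 2 * (c + ε / 2) ≤ ε / 2 * i := by
    have h7 := (Nat.le_ceil (2 * (c + ε / 2) / (ε / 2))).trans (Nat.cast_le.2 h3 : ((_ : ℕ) : ℝ) ≤ (i : ℝ))
    rw [div_le_iff₀ (by positivity)] at h7
    linarith
  have h7 : (c + δ) * Real.log t ≤ (c + δ) * ((i + 2) * Real.log 2) :=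
    mul_le_mul_of_nonneg_left h4 (by linarith)
  have h8 : (1 + 2 * δ) * Ms a (fun n => n) H t ≤ (1 + 2 * δ) * ((c + δ) * ((i + 2) * Real.log 2)) :=
    mul_le_mul_of_nonneg_left (h5.trans h7) (by linarith)
  have h9 : (1 + 2 * δ) * (c + δ) * ((i + 2) * Real.log 2) ≤ (c + ε / 2) * ((i + 2) * Real.log 2) :=
    mul_le_mul_of_nonneg_right hγ (by positivity)
  have h10 : (c + ε / 2) * (i + 2) ≤ (c + ε) * i := by nlinarith
  have h11 : (c + ε / 2) * (i + 2) * Real.log 2 ≤ (c + ε) * i * Real.log 2 :=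
    mul_le_mul_of_nonneg_right h10 hl2.le
  nlinarith

/-- the length of the steps in the block `i` -/
noncomputable def HH (c : ℝ) (i : ℕ) : ℕ := wl c (2 ^ (i + 2)) + 1

lemma HH_small {c : ℝ} (hc : 0 < c) (M : ℝ) {θ : ℝ} (hθ : 0 < θ) :
    ∀ᶠ i : ℕ in atTop, M * (HH c i : ℝ) ≤ (2 : ℝ) ^ (θ * i) := by
  have hr0 : (0 : ℝ) < (2 : ℝ) ^ (-θ) := by positivity
  have hr : |(2 : ℝ) ^ (-θ)| < 1 := by
    rw [abs_of_pos hr0]
    exact Real.rpow_lt_one_of_one_lt_of_neg (by norm_num) (by linarith)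
  have h1 := tendsto_pow_const_mul_const_pow_of_abs_lt_one 2 hr
  have hpos : 0 < 1 / ((|M| + 1) * (9 * c + 1)) := by positivity
  filter_upwards [h1.eventually (eventually_le_nhds hpos), eventually_ge_atTop 1] with i h2 h3
  have h4 : (HH c i : ℝ) ≤ c * (((i : ℝ) + 1 + 1) * Real.log 2) ^ 2 + 1 := by
    unfold HH
    have := wl_le hc.le (i + 1)
    push_cast at this ⊢
    linarith
  have hi1 : (1 : ℝ) ≤ i := by exact_mod_cast h3
  have hl := Real.log_two_lt_d9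
  have hl2 : 0 < Real.log 2 := Real.log_pos (by norm_num)
  have h5 : ((i : ℝ) + 1 + 1) * Real.log 2 ≤ 3 * i := by nlinarith
  have h6 : (((i : ℝ) + 1 + 1) * Real.log 2) ^ 2 ≤ (3 * i) ^ 2 := pow_le_pow_left₀ (by positivity) h5 2
  have h7 : (HH c i : ℝ) ≤ (9 * c + 1) * (i : ℝ) ^ 2 := by nlinarith
  have e1 : (2 : ℝ) ^ (θ * i) * ((2 : ℝ) ^ (-θ)) ^ i = 1 := by
    rw [← Real.rpow_natCast, ← Real.rpow_mul (by norm_num), ← Real.rpow_add (by norm_num)]
    rw [show θ * (i : ℝ) + -θ * i = 0 by ring, Real.rpow_zero]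
  have h8 : (i : ℝ) ^ 2 ≤ 1 / ((|M| + 1) * (9 * c + 1)) * (2 : ℝ) ^ (θ * i) := by
    have h9 := mul_le_mul_of_nonneg_right h2 (show (0 : ℝ) ≤ (2 : ℝ) ^ (θ * i) by positivity)
    have e2 : (i : ℝ) ^ 2 * ((2 : ℝ) ^ (-θ)) ^ i * (2 : ℝ) ^ (θ * i) = (i : ℝ) ^ 2 := by
      rw [mul_assoc, mul_comm (((2 : ℝ) ^ (-θ)) ^ i), e1, mul_one]
    rwa [e2] at h9
  have hH : (0 : ℝ) ≤ HH c i := Nat.cast_nonneg _
  calc M * (HH c i : ℝ) ≤ (|M| + 1) * (HH c i : ℝ) :=
        mul_le_mul_of_nonneg_right (by linarith [le_abs_self M]) hH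
    _ ≤ (|M| + 1) * ((9 * c + 1) * (i : ℝ) ^ 2) := mul_le_mul_of_nonneg_left h7 (by positivity)
    _ ≤ (|M| + 1) * ((9 * c + 1) * (1 / ((|M| + 1) * (9 * c + 1)) * (2 : ℝ) ^ (θ * i))) := by
        apply mul_le_mul_of_nonneg_left _ (by positivity)
        exact mul_le_mul_of_nonneg_left h8 (by positivity)
    _ = (2 : ℝ) ^ (θ * i) := by
        have : (0 : ℝ) < |M| + 1 := by positivity
        have : (0 : ℝ) < 9 * c + 1 := by positivity
        field_simp

lemma lin_small (M : ℝ) {θ : ℝ} (hθ : 0 < θ) : ∀ᶠ i : ℕ in atTop, M * (i : ℝ) ≤ (2 : ℝ) ^ (θ * i) := by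
  have h4 := tendsto_self_mul_const_pow_of_lt_one (r := (2 : ℝ) ^ (-θ)) (by positivity)
    (Real.rpow_lt_one_of_one_lt_of_neg (by norm_num) (by linarith))
  filter_upwards [h4.eventually (eventually_le_nhds (show (0 : ℝ) < 1 / (|M| + 1) by positivity))] with i h2
  have e1 : (2 : ℝ) ^ (θ * i) * ((2 : ℝ) ^ (-θ)) ^ i = 1 := by
    rw [← Real.rpow_natCast, ← Real.rpow_mul (by norm_num), ← Real.rpow_add (by norm_num)]
    rw [show θ * (i : ℝ) + -θ * i = 0 by ring, Real.rpow_zero]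
  have h9 := mul_le_mul_of_nonneg_right h2 (show (0 : ℝ) ≤ (2 : ℝ) ^ (θ * i) by positivity)
  have e2 : (i : ℝ) * ((2 : ℝ) ^ (-θ)) ^ i * (2 : ℝ) ^ (θ * i) = (i : ℝ) := by
    rw [mul_assoc, mul_comm (((2 : ℝ) ^ (-θ)) ^ i), e1, mul_one]
  rw [e2] at h9
  calc M * (i : ℝ) ≤ (|M| + 1) * i := mul_le_mul_of_nonneg_right (by linarith [le_abs_self M]) (Nat.cast_nonneg _)
    _ ≤ (|M| + 1) * (1 / (|M| + 1) * (2 : ℝ) ^ (θ * i)) := mul_le_mul_of_nonneg_left h9 (by positivity)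
    _ = (2 : ℝ) ^ (θ * i) := by
        have : (0 : ℝ) < |M| + 1 := by positivity
        field_simp

end Pool.Agent.U158.RW
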